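import Mathlib

set_option autoImplicit false

/-!
# Locally anti-blocking bodies: the corner of boxes, and illumination
-/

namespace Pool.Agent.Q39.HD

open Set

variable {n : ℕ}

/-- `Covered N K` means that `K` is covered by at most `N` translates of its interior, i.e.
`c(K) ≤ N`. -/
def Covered {V : Type*} [TopologicalSpace V] [Add V] (N : ℕ) (K : Set V) : Prop :=
  ∃ T : Finset V, T.card ≤ N ∧ K ⊆ ⋃ t ∈ T, (fun x => t + x) '' interior K

/-- `K` contains with `x` all points between `0` and `x`. -/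
def LAB (K : Set (Fin n → ℝ)) : Prop :=
  ∀ x ∈ K, ∀ y : Fin n → ℝ,
    (∀ i, (0 ≤ y i ∧ y i ≤ x i) ∨ (x i ≤ y i ∧ y i ≤ 0)) → y ∈ K

/-- The pairs `(α, β)` of nonnegative vectors such that the box `[-β, α]` is contained in `K`. -/
def Cor (K : Set (Fin n → ℝ)) : Set ((Fin n → ℝ) × (Fin n → ℝ)) :=
  {q | (∀ i, 0 ≤ q.1 i) ∧ (∀ i, 0 ≤ q.2 i) ∧
    ∀ y : Fin n → ℝ, (∀ i, -q.2 i ≤ y i ∧ y i ≤ q.1 i) → y ∈ K}

theorem split_interval {l u l' u' a b y : ℝ} (hl : l ≤ u) (hl' : l' ≤ u') (ha : 0 ≤ a)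
    (hb : 0 ≤ b) (h1 : a * l + b * l' ≤ y) (h2 : y ≤ a * u + b * u') :
    ∃ z w : ℝ, l ≤ z ∧ z ≤ u ∧ l' ≤ w ∧ w ≤ u' ∧ y = a * z + b * w := by
  set D : ℝ := a * (u - l) + b * (u' - l') with hD
  have hD0 : 0 ≤ D := by
    have := mul_nonneg ha (sub_nonneg.2 hl)
    have := mul_nonneg hb (sub_nonneg.2 hl')
    linarith
  rcases hD0.eq_or_lt with h0 | h0
  · refine ⟨l, l', le_refl _, hl, le_refl _, hl', ?_⟩
    have : a * u + b * u' = a * l + b * l' := by
      have : a * u + b * u' = a * l + b * l' + D := by rw [hD]; ring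
      rw [this, ← h0, add_zero]
    linarith
  · set θ : ℝ := (y - (a * l + b * l')) / D with hθ
    have hθ0 : 0 ≤ θ := div_nonneg (by linarith) h0.le
    have hθ1 : θ ≤ 1 := by
      rw [hθ, div_le_one h0]
      rw [hD]; linarith
    refine ⟨l + θ * (u - l), l' + θ * (u' - l'), ?_, ?_, ?_, ?_, ?_⟩
    · nlinarith [mul_nonneg hθ0 (sub_nonneg.2 hl)]
    · nlinarith [mul_nonneg (sub_nonneg.2 hθ1) (sub_nonneg.2 hl)]
    · nlinarith [mul_nonneg hθ0 (sub_nonneg.2 hl')]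
    · nlinarith [mul_nonneg (sub_nonneg.2 hθ1) (sub_nonneg.2 hl')]
    · have : θ * D = y - (a * l + b * l') := by
        rw [hθ]; field_simp
      have h3 : a * (l + θ * (u - l)) + b * (l' + θ * (u' - l')) = a * l + b * l' + θ * D := by
        rw [hD]; ring
      rw [h3, this]; ring

theorem cor_convex {K : Set (Fin n → ℝ)} (hK : Convex ℝ K) : Convex ℝ (Cor K) := by
  intro q hq q' hq' a b ha hb hab
  obtain ⟨h1, h2, h3⟩ := hq
  obtain ⟨h1', h2', h3'⟩ := hq'
  refine ⟨fun i => ?_, fun i => ?_, fun y hy => ?_⟩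
  · simp only [Prod.fst_add, Prod.smul_fst, Pi.add_apply, Pi.smul_apply, smul_eq_mul]
    exact add_nonneg (mul_nonneg ha (h1 i)) (mul_nonneg hb (h1' i))
  · simp only [Prod.snd_add, Prod.smul_snd, Pi.add_apply, Pi.smul_apply, smul_eq_mul]
    exact add_nonneg (mul_nonneg ha (h2 i)) (mul_nonneg hb (h2' i))
  · have key : ∀ i, ∃ z w : ℝ, -q.2 i ≤ z ∧ z ≤ q.1 i ∧ -q'.2 i ≤ w ∧ w ≤ q'.1 i ∧
        y i = a * z + b * w := by
      intro i
      have := hy i
      simp only [Prod.snd_add, Prod.smul_snd, Prod.fst_add, Prod.smul_fst, Pi.add_apply,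
        Pi.smul_apply, smul_eq_mul] at this
      refine split_interval (by linarith [h1 i, h2 i]) (by linarith [h1' i, h2' i]) ha hb ?_ ?_
      · linarith [this.1]
      · linarith [this.2]
    choose z w hz1 hz2 hw1 hw2 hzw using key
    have hz := h3 z fun i => ⟨hz1 i, hz2 i⟩
    have hw := h3' w fun i => ⟨hw1 i, hw2 i⟩
    have := hK hz hw ha hb hab
    have hy' : y = a • z + b • w := by
      funext i
      simp [hzw i]
    rw [hy']
    exact this

/-- The interior criterion. -/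
theorem mem_interior_of_cor {K : Set (Fin n → ℝ)} {q : (Fin n → ℝ) × (Fin n → ℝ)}
    (hq : q ∈ Cor K) {y : Fin n → ℝ} (hy : ∀ i, -q.2 i < y i ∧ y i < q.1 i) :
    y ∈ interior K := by
  rw [mem_interior]
  refine ⟨Set.pi Set.univ fun i => Set.Ioo (-q.2 i) (q.1 i), ?_, ?_, ?_⟩
  · intro z hz
    exact hq.2.2 z fun i => ⟨(hz i (Set.mem_univ i)).1.le, (hz i (Set.mem_univ i)).2.le⟩
  · exact isOpen_set_pi Set.finite_univ fun i _ => isOpen_Ioo
  · intro i _
    exact ⟨(hy i).1, (hy i).2⟩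

theorem parts_mem_cor {K : Set (Fin n → ℝ)} (hL : LAB K) {x : Fin n → ℝ} (hx : x ∈ K) :
    (x⁺, x⁻) ∈ Cor K := by
  refine ⟨fun i => by simp [Pi.posPart_apply], fun i => by simp [Pi.negPart_apply],
    fun y hy => hL x hx y fun i => ?_⟩
  obtain ⟨h1, h2⟩ := hy i
  simp only [Pi.posPart_apply, Pi.negPart_apply] at h1 h2
  rcases le_total 0 (x i) with h | h
  · left
    rw [negPart_eq_zero.2 h] at h1
    rw [posPart_eq_self.2 h] at h2
    exact ⟨by linarith, h2⟩
  · right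
    rw [negPart_eq_neg.2 h] at h1
    rw [posPart_eq_zero.2 h] at h2
    exact ⟨by linarith, h2⟩

/-- A positive lower bound of finitely many positive numbers. -/
theorem exists_pos_le {ι : Type*} [Finite ι] (g : ι → ℝ) (hg : ∀ i, 0 < g i) :
    ∃ r : ℝ, 0 < r ∧ r ≤ 1 ∧ ∀ i, r ≤ g i := by
  rcases isEmpty_or_nonempty ι with h | h
  · exact ⟨1, one_pos, le_refl _, fun i => (h.false i).elim⟩
  · obtain ⟨i, hi⟩ := Finite.exists_min g
    exact ⟨min 1 (g i), lt_min one_pos (hg i), min_le_left _ _,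
      fun j => (min_le_right _ _).trans (hi j)⟩

/-- Illumination implies covering. -/
theorem covered_of_illum {V : Type*} [NormedAddCommGroup V] [NormedSpace ℝ V] {K : Set V}
    (hK : Convex ℝ K) (hc : IsCompact K) (U : Finset V)
    (h : ∀ x ∈ K, ∃ u ∈ U, ∃ ε : ℝ, 0 < ε ∧ x + ε • u ∈ interior K) : Covered U.card K := by
  classical
  have key : ∃ ε : ℝ, 0 < ε ∧ ∀ x ∈ K, x ∈ K → ∀ ε' : ℝ, 0 < ε' → ε' ≤ ε →
      ∃ u ∈ U, x + ε' • u ∈ interior K := by
    refine hc.induction_on (p := fun s => ∃ ε : ℝ, 0 < ε ∧ ∀ x ∈ s, x ∈ K → ∀ ε' : ℝ, 0 < ε' →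
      ε' ≤ ε → ∃ u ∈ U, x + ε' • u ∈ interior K) ?_ ?_ ?_ ?_
    · exact ⟨1, one_pos, fun x hx => hx.elim⟩
    · rintro s t hst ⟨ε, hε, h1⟩
      exact ⟨ε, hε, fun x hx => h1 x (hst hx)⟩
    · rintro s t ⟨ε, hε, h1⟩ ⟨ε₂, hε₂, h2⟩
      refine ⟨min ε ε₂, lt_min hε hε₂, ?_⟩
      rintro x (hx | hx) hxK ε' h0 hle
      · exact h1 x hx hxK ε' h0 (hle.trans (min_le_left _ _))
      · exact h2 x hx hxK ε' h0 (hle.trans (min_le_right _ _))
    · intro x hx
      obtain ⟨u, hu, ε, hε, hmem⟩ := h x hx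
      refine ⟨{z | z + ε • u ∈ interior K}, ?_, ε, hε, ?_⟩
      · apply mem_nhdsWithin_of_mem_nhds
        exact (isOpen_interior.preimage (by fun_prop : Continuous fun z : V => z + ε • u)).mem_nhds
          hmem
      · intro z hz hzK ε' h0 hle
        refine ⟨u, hu, ?_⟩
        have hz' : z + ε • u ∈ interior K := hz
        have h1 : (1 - ε' / ε) + ε' / ε = 1 := by ring
        have h2 : 0 ≤ 1 - ε' / ε := by
          rw [sub_nonneg, div_le_one hε]; exact hle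
        have := hK.combo_self_interior_mem_interior hzK hz' h2 (div_pos h0 hε) h1
        have he : (1 - ε' / ε) • z + (ε' / ε) • (z + ε • u) = z + ε' • u := by
          rw [smul_add, ← add_assoc, ← add_smul, h1, one_smul, smul_smul,
            div_mul_cancel₀ _ hε.ne']
        rwa [he] at this
  obtain ⟨ε, hε, hall⟩ := key
  refine ⟨U.image fun u => -(ε • u), Finset.card_image_le, fun x hx => ?_⟩
  obtain ⟨u, hu, hmem⟩ := hall x hx hx ε hε le_rfl
  simp only [Set.mem_iUnion]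
  exact ⟨-(ε • u), Finset.mem_image_of_mem _ hu, x + ε • u, hmem, by simp⟩

theorem Covered.mono {V : Type*} [TopologicalSpace V] [Add V] {N M : ℕ} {K : Set V}
    (h : Covered N K) (hNM : N ≤ M) : Covered M K := by
  obtain ⟨T, hT, hK⟩ := h
  exact ⟨T, hT.trans hNM, hK⟩

end Pool.Agent.Q39.HD
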