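import Mathlib
import Pool.Agent.H643R2.ChainDec

set_option autoImplicit false

/-!
# Covering the Boolean lattice by chains
-/

namespace Pool.Agent.Q39.HD

open Set

theorem chain_cover (n : ℕ) : ∃ f : Finset (Fin n) → ℕ, (∀ S, f S < n.choose (n / 2)) ∧
    ∀ S T, f S = f T → S ⊆ T ∨ T ⊆ S := by
  obtain ⟨f, h1, h2⟩ := Pool.Agent.H643R2.ChainDec.dilworth_finset
    (α := Finset (Fin n)) _ (n.choose (n / 2)) Finset.univ rfl (by
      intro S _ hS
      have hac : IsAntichain (· ⊆ ·) (S : Set (Finset (Fin n))) := by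
        intro a ha b hb hab hle
        exact hab (hS a (by exact_mod_cast ha) b (by exact_mod_cast hb) hle)
      have := hac.sperner
      simpa using this)
  exact ⟨f, fun S => h1 S (Finset.mem_univ _), fun S T h => h2 S (Finset.mem_univ _) T
    (Finset.mem_univ _) h⟩

/-- The number of sets of the `j`-th chain which do not contain `i`. -/
def cnt {n : ℕ} (f : Finset (Fin n) → ℕ) (j : ℕ) (i : Fin n) : ℕ :=
  (Finset.univ.filter fun S : Finset (Fin n) => f S = j ∧ i ∉ S).card

/-- The number of proper subsets of `S` in its chain. -/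
def low {n : ℕ} (f : Finset (Fin n) → ℕ) (S : Finset (Fin n)) : ℕ :=
  (Finset.univ.filter fun T : Finset (Fin n) => f T = f S ∧ T ⊂ S).card

theorem cnt_le_low {n : ℕ} {f : Finset (Fin n) → ℕ} (hf : ∀ S T, f S = f T → S ⊆ T ∨ T ⊆ S)
    (S : Finset (Fin n)) (i : Fin n) (hi : i ∈ S) : cnt f (f S) i ≤ low f S := by
  unfold cnt low
  refine Finset.card_le_card fun T hT => ?_
  simp only [Finset.mem_filter, Finset.mem_univ, true_and] at hT ⊢
  refine ⟨hT.1, ?_⟩
  rcases hf T S hT.1 with h | h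
  · exact h.ssubset_of_ne (by rintro rfl; exact hT.2 hi)
  · exact absurd (h hi) hT.2

theorem low_lt_cnt {n : ℕ} {f : Finset (Fin n) → ℕ}
    (S : Finset (Fin n)) (i : Fin n) (hi : i ∉ S) : low f S + 1 ≤ cnt f (f S) i := by
  classical
  unfold cnt low
  have hS : S ∉ Finset.univ.filter fun T : Finset (Fin n) => f T = f S ∧ T ⊂ S := by
    simp
  rw [← Finset.card_insert_of_notMem hS]
  refine Finset.card_le_card fun T hT => ?_
  simp only [Finset.mem_insert, Finset.mem_filter, Finset.mem_univ, true_and] at hT ⊢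
  rcases hT with rfl | ⟨h1, h2⟩
  · exact ⟨rfl, hi⟩
  · exact ⟨h1, fun h => hi (h2.1 h)⟩

end Pool.Agent.Q39.HD
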