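import Mathlib
import Pool.Agent.Q39.HD.Basic
import Pool.Agent.Q39.HD.Chains

set_option autoImplicit false

/-!
# Bodies in which the positive and the negative part of a point are not both on the boundary
-/

namespace Pool.Agent.Q39.HD

open Set

variable {n : ℕ}

theorem posPart_apply' (x : Fin n → ℝ) (i : Fin n) : x⁺ i = max (x i) 0 := by
  rw [Pi.posPart_apply]; rfl

theorem negPart_apply' (x : Fin n → ℝ) (i : Fin n) : x⁻ i = max (-x i) 0 := by
  rw [Pi.negPart_apply]; rfl

/-- The direction of a chain. -/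
def dirN (δ : ℝ) (f : Finset (Fin n) → ℕ) (j : ℕ) : Fin n → ℝ := fun i => -δ ^ cnt f j i

theorem illum_neg {K : Set (Fin n → ℝ)} (hK : Convex ℝ K) (hL : LAB K)
    {f : Finset (Fin n) → ℕ} (hf : ∀ S T, f S = f T → S ⊆ T ∨ T ⊆ S)
    {P η δ : ℝ} (hP1 : 1 ≤ P) (hP : ∀ x ∈ K, ∀ i, |x i| ≤ P) (hη : 0 < η) (hδ : 0 < δ)
    (hδ1 : δ ≤ 1) (hδη : 2 * P * δ < η) {x : Fin n → ℝ} (hx : x ∈ K)
    (hxη : -x⁻ - (fun _ => η) ∈ K) :
    ∃ ε : ℝ, 0 < ε ∧
      x + ε • dirN δ f (f (Finset.univ.filter fun i => 0 < x i)) ∈ interior K := by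
  classical
  set S : Finset (Fin n) := Finset.univ.filter fun i => 0 < x i with hS
  obtain ⟨ε, hε, hε1, hεx⟩ := exists_pos_le (fun i => if 0 < x i then x i / 2 else 1) (by
    intro i
    split_ifs with h
    · linarith
    · exact one_pos)
  refine ⟨ε, hε, ?_⟩
  set m := low f S with hm
  have hδm : 0 < δ ^ m := pow_pos hδ m
  have hδm1 : δ ^ m ≤ 1 := pow_le_one₀ hδ.le hδ1
  set l : ℝ := ε * δ ^ m / (2 * P) with hl
  have hP0 : 0 < P := by linarith
  have hl0 : 0 < l := by positivity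
  have hlP : l * P = ε * δ ^ m / 2 := by
    rw [hl]; field_simp
  have hl1 : l ≤ 1 / 2 := by
    have h1 : ε * δ ^ m ≤ 1 := by nlinarith
    have : l * P ≤ 1 / 2 := by rw [hlP]; linarith
    nlinarith
  have hq0 : ((0 : Fin n → ℝ), x⁻ + fun _ => η) ∈ Cor K := by
    have h := parts_mem_cor hL hxη
    have e1 : (-x⁻ - fun _ => η)⁺ = 0 := by
      funext i
      rw [posPart_apply']
      simp only [Pi.sub_apply, Pi.neg_apply, negPart_apply', Pi.zero_apply]
      apply max_eq_right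
      have := le_max_right (-x i) 0
      linarith
    have e2 : (-x⁻ - fun _ => η)⁻ = x⁻ + fun _ => η := by
      funext i
      rw [negPart_apply']
      simp only [Pi.sub_apply, Pi.neg_apply, negPart_apply', Pi.add_apply]
      rw [max_eq_left]
      · ring
      · have := le_max_right (-x i) 0
        linarith
    rwa [e1, e2] at h
  have hq := cor_convex hK (parts_mem_cor hL hx) hq0 (show (0:ℝ) ≤ 1 - l by linarith) hl0.le
    (by ring)
  refine mem_interior_of_cor hq fun i => ?_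
  simp only [Prod.snd_add, Prod.smul_snd, Prod.fst_add, Prod.smul_fst, Pi.add_apply,
    Pi.smul_apply, smul_eq_mul, Pi.zero_apply, mul_zero, add_zero, dirN, posPart_apply',
    negPart_apply']
  have hxi := hP x hx i
  have hεi := hεx i
  by_cases hi : 0 < x i
  · have hiS : i ∈ S := by simp [hS, hi]
    simp only [hi, if_true] at hεi
    have hc : cnt f (f S) i ≤ m := cnt_le_low hf S i hiS
    have hd : δ ^ m ≤ δ ^ cnt f (f S) i := pow_le_pow_of_le_one hδ.le hδ1 hc
    have hd1 : δ ^ cnt f (f S) i ≤ 1 := pow_le_one₀ hδ.le hδ1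
    have hd0 : 0 < δ ^ cnt f (f S) i := pow_pos hδ _
    rw [max_eq_left hi.le, max_eq_right (by linarith : -x i ≤ 0)]
    constructor
    · have h1 : ε * δ ^ cnt f (f S) i ≤ ε * 1 := mul_le_mul_of_nonneg_left hd1 hε.le
      have h2 : 0 < l * η := mul_pos hl0 hη
      nlinarith
    · have h1 : l * x i ≤ l * P := mul_le_mul_of_nonneg_left ((le_abs_self _).trans hxi) hl0.le
      have h2 : ε * δ ^ m ≤ ε * δ ^ cnt f (f S) i := mul_le_mul_of_nonneg_left hd hε.le
      have h3 : 0 < ε * δ ^ m := mul_pos hε hδm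
      nlinarith
  · have hi' : x i ≤ 0 := not_lt.1 hi
    have hiS : i ∉ S := by simp [hS, hi]
    have hc : m + 1 ≤ cnt f (f S) i := low_lt_cnt S i hiS
    have hd : δ ^ cnt f (f S) i ≤ δ ^ (m + 1) := pow_le_pow_of_le_one hδ.le hδ1 hc
    have hd0 : 0 < δ ^ cnt f (f S) i := pow_pos hδ _
    rw [max_eq_right hi', max_eq_left (by linarith : 0 ≤ -x i)]
    constructor
    · have h1 : ε * δ ^ cnt f (f S) i ≤ ε * δ ^ (m + 1) := mul_le_mul_of_nonneg_left hd hε.le
      have h2 : ε * δ ^ (m + 1) < l * η := by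
        have : l * η > l * (2 * P * δ) := mul_lt_mul_of_pos_left hδη hl0
        have e : l * (2 * P * δ) = ε * δ ^ (m + 1) := by
          rw [pow_succ]
          have : l * (2 * P * δ) = 2 * (l * P) * δ := by ring
          rw [this, hlP]; ring
        linarith
      nlinarith
    · have h1 : 0 < ε * δ ^ cnt f (f S) i := mul_pos hε hd0
      nlinarith

theorem lab_neg {K : Set (Fin n → ℝ)} (hL : LAB K) : LAB (-K) := by
  intro x hx y hy
  rw [Set.mem_neg] at hx ⊢
  refine hL _ hx _ fun i => ?_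
  simp only [Pi.neg_apply]
  rcases hy i with ⟨h1, h2⟩ | ⟨h1, h2⟩
  · right; constructor <;> linarith
  · left; constructor <;> linarith

theorem interior_neg' {K : Set (Fin n → ℝ)} : interior (-K) = -interior K := by
  have : (-K : Set (Fin n → ℝ)) = (Homeomorph.neg (Fin n → ℝ)) ⁻¹' K := by
    ext x; simp
  rw [this, ← (Homeomorph.neg (Fin n → ℝ)).preimage_interior]
  ext x; simp

theorem illum_pos {K : Set (Fin n → ℝ)} (hK : Convex ℝ K) (hL : LAB K)
    {f : Finset (Fin n) → ℕ} (hf : ∀ S T, f S = f T → S ⊆ T ∨ T ⊆ S)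
    {P η δ : ℝ} (hP1 : 1 ≤ P) (hP : ∀ x ∈ K, ∀ i, |x i| ≤ P) (hη : 0 < η) (hδ : 0 < δ)
    (hδ1 : δ ≤ 1) (hδη : 2 * P * δ < η) {x : Fin n → ℝ} (hx : x ∈ K)
    (hxη : x⁺ + (fun _ => η) ∈ K) :
    ∃ ε : ℝ, 0 < ε ∧
      x + ε • (-dirN δ f (f (Finset.univ.filter fun i => x i < 0))) ∈ interior K := by
  have hx' : -x ∈ -K := by rw [Set.mem_neg, neg_neg]; exact hx
  obtain ⟨ε, hε, h⟩ := illum_neg hK.neg (lab_neg hL) hf hP1 (by
    intro z hz i
    have := hP _ hz i
    simpa using this) hη hδ hδ1 hδη hx' (by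
      rw [Set.mem_neg]
      have : -(-(-x)⁻ - fun _ => η) = x⁺ + fun _ => η := by
        rw [negPart_neg]
        abel
      rw [this]; exact hxη)
  refine ⟨ε, hε, ?_⟩
  rw [interior_neg', Set.mem_neg] at h
  have e : (Finset.univ.filter fun i => 0 < (-x) i) = Finset.univ.filter fun i => x i < 0 := by
    ext i; simp
  rw [e] at h
  have e2 : -(-x + ε • dirN δ f (f (Finset.univ.filter fun i => x i < 0))) =
      x + ε • (-dirN δ f (f (Finset.univ.filter fun i => x i < 0))) := by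
    rw [smul_neg]; abel
  rwa [e2] at h

theorem bounded_coord {K : Set (Fin n → ℝ)} (hc : IsCompact K) :
    ∃ P : ℝ, 1 ≤ P ∧ ∀ x ∈ K, ∀ i, |x i| ≤ P := by
  obtain ⟨C, hC⟩ := hc.isBounded.exists_norm_le
  refine ⟨max 1 C, le_max_left _ _, fun x hx i => ?_⟩
  exact ((norm_le_pi_norm x i).trans (hC x hx)).trans (le_max_right _ _)

theorem const_add_mem_nhds {K : Set (Fin n → ℝ)} {z : Fin n → ℝ} (hz : z ∈ interior K) :
    ∃ η : ℝ, 0 < η ∧ z + (fun _ => 2 * η) ∈ interior K := by
  have hcont : Continuous fun t : ℝ => z + (fun _ : Fin n => t) := by fun_prop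
  have h0 : (0 : ℝ) ∈ (fun t : ℝ => z + (fun _ : Fin n => t)) ⁻¹' interior K := by
    simp only [Set.mem_preimage]
    have : z + (fun _ : Fin n => (0:ℝ)) = z := by
      funext i; simp
    rw [this]; exact hz
  obtain ⟨ε, hε, hball⟩ := Metric.isOpen_iff.1 (isOpen_interior.preimage hcont) 0 h0
  refine ⟨ε / 4, by positivity, ?_⟩
  apply hball
  rw [Metric.mem_ball, Real.dist_eq, sub_zero, abs_of_pos (by positivity)]
  linarith

theorem lab_pos_mono {K : Set (Fin n → ℝ)} (hL : LAB K) {x : Fin n → ℝ} {η η' : ℝ}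
    (h0 : 0 ≤ η') (h : η' ≤ η) (hx : x⁺ + (fun _ => η) ∈ K) : x⁺ + (fun _ => η') ∈ K := by
  refine hL _ hx _ fun i => Or.inl ?_
  simp only [Pi.add_apply, posPart_apply']
  have := le_max_right (x i) 0
  constructor <;> linarith

theorem lab_neg_mono {K : Set (Fin n → ℝ)} (hL : LAB K) {x : Fin n → ℝ} {η η' : ℝ}
    (h0 : 0 ≤ η') (h : η' ≤ η) (hx : -x⁻ - (fun _ => η) ∈ K) : -x⁻ - (fun _ => η') ∈ K := by
  refine hL _ hx _ fun i => Or.inr ?_
  simp only [Pi.sub_apply, Pi.neg_apply, negPart_apply']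
  have := le_max_right (-x i) 0
  constructor <;> linarith

theorem posPart_continuous : Continuous fun x : Fin n → ℝ => x⁺ := by
  have : (fun x : Fin n → ℝ => x⁺) = fun x i => max (x i) 0 := by
    funext x i; rw [posPart_apply']
  rw [this]
  fun_prop

theorem negPart_continuous : Continuous fun x : Fin n → ℝ => x⁻ := by
  have : (fun x : Fin n → ℝ => x⁻) = fun x i => max (-x i) 0 := by
    funext x i; rw [negPart_apply']
  rw [this]
  fun_prop

theorem uniform_sep {K : Set (Fin n → ℝ)} (hc : IsCompact K) (hL : LAB K)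
    (hsep : ∀ x ∈ K, x⁺ ∈ interior K ∨ -x⁻ ∈ interior K) :
    ∃ η : ℝ, 0 < η ∧ ∀ x ∈ K, (x⁺ + fun _ => η) ∈ K ∨ (-x⁻ - fun _ => η) ∈ K := by
  refine hc.induction_on (p := fun s => ∃ η : ℝ, 0 < η ∧ ∀ x ∈ s,
    (x⁺ + fun _ => η) ∈ K ∨ (-x⁻ - fun _ => η) ∈ K) ?_ ?_ ?_ ?_
  · exact ⟨1, one_pos, fun x hx => hx.elim⟩
  · rintro s t hst ⟨η, hη, h1⟩
    exact ⟨η, hη, fun x hx => h1 x (hst hx)⟩
  · rintro s t ⟨η, hη, h1⟩ ⟨η₂, hη₂, h2⟩
    refine ⟨min η η₂, lt_min hη hη₂, ?_⟩
    have hm : 0 ≤ min η η₂ := (lt_min hη hη₂).le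
    rintro x (hx | hx)
    · rcases h1 x hx with h | h
      · exact Or.inl (lab_pos_mono hL hm (min_le_left _ _) h)
      · exact Or.inr (lab_neg_mono hL hm (min_le_left _ _) h)
    · rcases h2 x hx with h | h
      · exact Or.inl (lab_pos_mono hL hm (min_le_right _ _) h)
      · exact Or.inr (lab_neg_mono hL hm (min_le_right _ _) h)
  · intro x hx
    rcases hsep x hx with h | h
    · obtain ⟨η, hη, h'⟩ := const_add_mem_nhds h
      refine ⟨{z | (z⁺ + fun _ => 2 * η) ∈ interior K}, ?_, 2 * η, by positivity, ?_⟩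
      · apply mem_nhdsWithin_of_mem_nhds
        exact (isOpen_interior.preimage
          (posPart_continuous.add continuous_const)).mem_nhds h'
      · intro z hz
        exact Or.inl (interior_subset hz)
    · have h2 : x⁻ ∈ interior (-K) := by rw [interior_neg']; exact h
      obtain ⟨η, hη, h'⟩ := const_add_mem_nhds h2
      refine ⟨{z | (z⁻ + fun _ => 2 * η) ∈ interior (-K)}, ?_, 2 * η, by positivity, ?_⟩
      · apply mem_nhdsWithin_of_mem_nhds
        exact (isOpen_interior.preimage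
          (negPart_continuous.add continuous_const)).mem_nhds h'
      · intro z hz
        right
        have := interior_subset hz
        rw [Set.mem_neg] at this
        have e : -(z⁻ + fun _ => 2 * η) = -z⁻ - fun _ => 2 * η := by abel
        rwa [e] at this

/-- **The separated case.** -/
theorem separated {K : Set (Fin n → ℝ)} (hK : Convex ℝ K) (hc : IsCompact K) (hL : LAB K)
    (hsep : ∀ x ∈ K, x⁺ ∈ interior K ∨ -x⁻ ∈ interior K) :
    Covered (2 * n.choose (n / 2)) K := by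
  classical
  obtain ⟨f, hf1, hf2⟩ := chain_cover n
  obtain ⟨P, hP1, hP⟩ := bounded_coord hc
  obtain ⟨η, hη, hall⟩ := uniform_sep hc hL hsep
  have hP0 : 0 < P := by linarith
  set δ : ℝ := min 1 (η / (4 * P)) with hδ
  have hδ0 : 0 < δ := lt_min one_pos (by positivity)
  have hδ1 : δ ≤ 1 := min_le_left _ _
  have hδη : 2 * P * δ < η := by
    have h1 : δ ≤ η / (4 * P) := min_le_right _ _
    have h2 : 2 * P * δ ≤ 2 * P * (η / (4 * P)) := mul_le_mul_of_nonneg_left h1 (by positivity)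
    have h3 : 2 * P * (η / (4 * P)) = η / 2 := by field_simp; ring
    linarith
  set U : Finset (Fin n → ℝ) :=
    (Finset.range (n.choose (n / 2))).image (fun j => dirN δ f j) ∪
    (Finset.range (n.choose (n / 2))).image (fun j => -dirN δ f j) with hU
  have hcard : U.card ≤ 2 * n.choose (n / 2) := by
    refine (Finset.card_union_le _ _).trans ?_
    have h1 := Finset.card_image_le (s := Finset.range (n.choose (n / 2)))
      (f := fun j => dirN δ f j)
    have h2 := Finset.card_image_le (s := Finset.range (n.choose (n / 2)))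
      (f := fun j => -dirN δ f j)
    rw [Finset.card_range] at h1 h2
    omega
  refine (covered_of_illum hK hc U fun x hx => ?_).mono hcard
  rcases hall x hx with h | h
  · obtain ⟨ε, hε, hm⟩ := illum_pos hK hL hf2 hP1 hP hη hδ0 hδ1 hδη hx h
    exact ⟨_, Finset.mem_union_right _ (Finset.mem_image_of_mem _
      (Finset.mem_range.2 (hf1 _))), ε, hε, hm⟩
  · obtain ⟨ε, hε, hm⟩ := illum_neg hK hL hf2 hP1 hP hη hδ0 hδ1 hδη hx h
    exact ⟨_, Finset.mem_union_left _ (Finset.mem_image_of_mem _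
      (Finset.mem_range.2 (hf1 _))), ε, hε, hm⟩

end Pool.Agent.Q39.HD
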