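import Mathlib
import Pool.Agent.Q39.HD.Sep

set_option autoImplicit false

/-!
# Bodies `A - B`
-/

namespace Pool.Agent.Q39.HD

open Set

variable {n : ℕ}

theorem pos_mem {K : Set (Fin n → ℝ)} (hL : LAB K) {x : Fin n → ℝ} (hx : x ∈ K) : x⁺ ∈ K := by
  refine hL x hx _ fun i => ?_
  rw [posPart_apply']
  rcases le_total 0 (x i) with h | h
  · left; rw [max_eq_left h]; exact ⟨h, le_refl _⟩
  · right; rw [max_eq_right h]; exact ⟨h, le_refl _⟩

theorem neg_mem' {K : Set (Fin n → ℝ)} (hL : LAB K) {x : Fin n → ℝ} (hx : x ∈ K) :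
    -x⁻ ∈ K := by
  refine hL x hx _ fun i => ?_
  rw [Pi.neg_apply, negPart_apply']
  rcases le_total 0 (x i) with h | h
  · left; rw [max_eq_right (by linarith)]; simp [h]
  · right; rw [max_eq_left (by linarith)]; simp [h]

/-- For `A - B`, boxes. -/
theorem cor_of_diff {K : Set (Fin n → ℝ)} (hL : LAB K)
    (hD : ∀ x ∈ K, ∀ y ∈ K, x⁺ - y⁻ ∈ K) {a b : Fin n → ℝ} (ha : a ∈ K) (hb : -b ∈ K)
    (ha0 : ∀ i, 0 ≤ a i) (hb0 : ∀ i, 0 ≤ b i) : (a, b) ∈ Cor K := by
  refine ⟨ha0, hb0, fun y hy => ?_⟩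
  have h1 : y⁺ ∈ K := by
    refine hL a ha _ fun i => Or.inl ?_
    rw [posPart_apply']
    exact ⟨le_max_right _ _, max_le (hy i).2 (ha0 i)⟩
  have h2 : -y⁻ ∈ K := by
    refine hL (-b) hb _ fun i => Or.inr ?_
    rw [Pi.neg_apply, Pi.neg_apply, negPart_apply']
    refine ⟨neg_le_neg (max_le ?_ (hb0 i)), ?_⟩
    · have := (hy i).1
      simp only at this
      linarith
    · have := le_max_right (-y i) 0
      linarith
  have h3 := hD _ h1 _ h2
  have e1 : (y⁺)⁺ = y⁺ := by simp
  have e2 : (-y⁻)⁻ = y⁻ := by simp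
  rw [e1, e2, posPart_sub_negPart] at h3
  exact h3

/-- A nonnegative vector of `K` which is positive wherever possible. -/
theorem exists_full {K : Set (Fin n → ℝ)} (hK : Convex ℝ K) (hL : LAB K) (hne : K.Nonempty) :
    ∃ v ∈ K, (∀ i, 0 ≤ v i) ∧ ∀ i, (∃ x ∈ K, 0 < x i) → 0 < v i := by
  classical
  have key : ∀ s : Finset (Fin n), ∃ v ∈ K, (∀ i, 0 ≤ v i) ∧
      ∀ i ∈ s, (∃ x ∈ K, 0 < x i) → 0 < v i := by
    intro s
    induction s using Finset.induction_on with
    | empty =>
      obtain ⟨x, hx⟩ := hne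
      refine ⟨x⁺, pos_mem hL hx, fun i => ?_, fun i hi => absurd hi (Finset.notMem_empty i)⟩
      rw [posPart_apply']; exact le_max_right _ _
    | insert j s hj ih =>
      obtain ⟨v, hv, hv0, hvs⟩ := ih
      by_cases hex : ∃ x ∈ K, 0 < x j
      · obtain ⟨x, hx, hxj⟩ := hex
        have hx' := pos_mem hL hx
        refine ⟨(1 / 2 : ℝ) • v + (1 / 2 : ℝ) • x⁺,
          hK hv hx' (by norm_num) (by norm_num) (by norm_num), fun i => ?_, fun i hi hi' => ?_⟩
        · simp only [Pi.add_apply, Pi.smul_apply, smul_eq_mul, posPart_apply']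
          have h1 := hv0 i
          have h2 := le_max_right (x i) 0
          linarith
        · simp only [Pi.add_apply, Pi.smul_apply, smul_eq_mul, posPart_apply']
          have h1 := hv0 i
          have h2 := le_max_right (x i) 0
          rcases Finset.mem_insert.1 hi with rfl | hi
          · have := le_max_left (x i) 0
            linarith
          · have := hvs i hi hi'
            linarith
      · refine ⟨v, hv, hv0, fun i hi hi' => ?_⟩
        rcases Finset.mem_insert.1 hi with rfl | hi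
        · exact absurd hi' hex
        · exact hvs i hi hi'
  obtain ⟨v, hv, hv0, h⟩ := key Finset.univ
  exact ⟨v, hv, hv0, fun i => h i (Finset.mem_univ i)⟩

open Classical in
/-- The direction of a set of coordinates. -/
noncomputable def dirD (K : Set (Fin n → ℝ)) (δ : ℝ) (W : Finset (Fin n)) : Fin n → ℝ := fun i =>
  if i ∈ W then (if ∃ x ∈ K, x i < 0 then 1 else δ ^ 2) else -δ

open Classical in
/-- The set of coordinates of a point. -/
noncomputable def setD (K : Set (Fin n → ℝ)) (x : Fin n → ℝ) : Finset (Fin n) :=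
  Finset.univ.filter fun i => x i < 0 ∨ (x i = 0 ∧ ¬ ∃ x ∈ K, x i < 0)

/-- The common part of the illumination of `A - B`. -/
theorem illum_core {K : Set (Fin n → ℝ)} (hK : Convex ℝ K) (hL : LAB K)
    (hint : (interior K).Nonempty)
    (hD : ∀ x ∈ K, ∀ y ∈ K, x⁺ - y⁻ ∈ K) {P r δ : ℝ} (hP1 : 1 ≤ P)
    (hP : ∀ x ∈ K, ∀ i, |x i| ≤ P) (hδ : 0 < δ) (hδ1 : δ ≤ 1) (hr : 2 * P * δ < r)
    {v w : Fin n → ℝ} (hv : v ∈ K) (hv0 : ∀ i, 0 ≤ v i) (hv1 : ∀ i, (∃ x ∈ K, 0 < x i) → r ≤ v i)
    (hw : -w ∈ K) (hw0 : ∀ i, 0 ≤ w i)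
    {x : Fin n → ℝ} (hx : x ∈ K) (W : Finset (Fin n))
    (hW : ∀ i, (i ∈ W ∧ i ∈ setD K x) ∨ (i ∉ W ∧ i ∉ setD K x ∧ (x i = 0 → r ≤ w i)) ∨
      (i ∉ W ∧ x i < 0 ∧ -x i + r ≤ w i)) :
    ∃ ε : ℝ, 0 < ε ∧ x + ε • dirD K δ W ∈ interior K := by
  classical
  obtain ⟨ε, hε, hε1, hεx⟩ := exists_pos_le (fun i => if x i = 0 then 1 else |x i| / 2) (by
    intro i
    split_ifs with h
    · exact one_pos
    · have := abs_pos.2 h
      linarith)
  refine ⟨ε, hε, ?_⟩
  have hP0 : 0 < P := by linarith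
  set l : ℝ := ε * δ / (2 * P) with hl
  set m : ℝ := ε / (2 * P) with hm
  have hl0 : 0 < l := by positivity
  have hm0 : 0 < m := by positivity
  have hlP : l * P = ε * δ / 2 := by rw [hl]; field_simp
  have hmP : m * P = ε / 2 := by rw [hm]; field_simp
  have hεδ : 0 < ε * δ := mul_pos hε hδ
  have hεδ1 : ε * δ ≤ ε := by nlinarith
  have hεδ2 : ε * δ ^ 2 ≤ ε * δ := by
    have : δ ^ 2 ≤ δ := by nlinarith
    exact mul_le_mul_of_nonneg_left this hε.le
  have hεδ20 : 0 < ε * δ ^ 2 := by positivity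
  have hl1 : l ≤ 1 / 2 := by nlinarith
  have hm1 : m ≤ 1 / 2 := by nlinarith
  -- strict inequalities
  have hlr : ε * δ ^ 2 < l * r := by
    have h1 : l * (2 * P * δ) < l * r := mul_lt_mul_of_pos_left hr hl0
    have e : l * (2 * P * δ) = ε * δ ^ 2 := by
      have : l * (2 * P * δ) = 2 * (l * P) * δ := by ring
      rw [this, hlP]; ring
    linarith
  have hmr : ε * δ < m * r := by
    have h1 : m * (2 * P * δ) < m * r := mul_lt_mul_of_pos_left hr hm0
    have e : m * (2 * P * δ) = ε * δ := by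
      have : m * (2 * P * δ) = 2 * (m * P) * δ := by ring
      rw [this, hmP]; ring
    linarith
  have ha : (1 - l) • x⁺ + l • v ∈ K :=
    hK (pos_mem hL hx) hv (by linarith) hl0.le (by ring)
  have hb : -((1 - m) • x⁻ + m • w) ∈ K := by
    have : -((1 - m) • x⁻ + m • w) = (1 - m) • (-x⁻) + m • (-w) := by
      rw [smul_neg, smul_neg]; abel
    rw [this]
    exact hK (neg_mem' hL hx) hw (by linarith) hm0.le (by ring)
  have ha0 : ∀ i, 0 ≤ ((1 - l) • x⁺ + l • v) i := by
    intro i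
    simp only [Pi.add_apply, Pi.smul_apply, smul_eq_mul, posPart_apply']
    exact add_nonneg (mul_nonneg (by linarith) (le_max_right _ _)) (mul_nonneg hl0.le (hv0 i))
  have hb0 : ∀ i, 0 ≤ ((1 - m) • x⁻ + m • w) i := by
    intro i
    simp only [Pi.add_apply, Pi.smul_apply, smul_eq_mul, negPart_apply']
    exact add_nonneg (mul_nonneg (by linarith) (le_max_right _ _)) (mul_nonneg hm0.le (hw0 i))
  refine mem_interior_of_cor (cor_of_diff hL hD ha hb ha0 hb0) fun i => ?_
  simp only [Pi.add_apply, Pi.smul_apply, smul_eq_mul, posPart_apply', negPart_apply']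
  have hxi := hP x hx i
  have hεi := hεx i
  have hposneg : (∃ x ∈ K, 0 < x i) ∨ ∃ x ∈ K, x i < 0 := by
    obtain ⟨z, hz⟩ := hint
    rcases lt_trichotomy (z i) 0 with h | h | h
    · exact Or.inr ⟨z, interior_subset hz, h⟩
    · obtain ⟨η, hη, h'⟩ := const_add_mem_nhds hz
      refine Or.inl ⟨_, interior_subset h', ?_⟩
      simp only [Pi.add_apply, h]
      linarith
    · exact Or.inl ⟨z, interior_subset hz, h⟩
  have hwi := hw0 i
  have hvi := hv0 i
  have hlv : 0 ≤ l * v i := mul_nonneg hl0.le hvi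
  have hmw : 0 ≤ m * w i := mul_nonneg hm0.le hwi
  rcases hW i with ⟨h1, h2⟩ | ⟨h1, h2, h3⟩ | ⟨h1, h2, h3⟩
  · -- `i ∈ W`
    simp only [dirD, h1, if_true]
    simp only [setD, Finset.mem_filter, Finset.mem_univ, true_and] at h2
    rcases h2 with h2 | ⟨h2, h4⟩
    · have hn : ∃ x ∈ K, x i < 0 := ⟨x, hx, h2⟩
      rw [if_pos hn, mul_one, max_eq_left (by linarith : 0 ≤ -x i), max_eq_right h2.le]
      rw [if_neg h2.ne, abs_of_neg h2] at hεi
      rw [abs_of_neg h2] at hxi
      constructor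
      · have : m * (-x i) ≤ m * P := mul_le_mul_of_nonneg_left hxi hm0.le
        nlinarith
      · nlinarith
    · rw [if_neg h4, h2, neg_zero, max_self]
      have hp : ∃ x ∈ K, 0 < x i := hposneg.resolve_right h4
      have hvr := hv1 i hp
      have : l * r ≤ l * v i := mul_le_mul_of_nonneg_left hvr hl0.le
      constructor <;> nlinarith
  · -- `i ∉ W`, `0 ≤ x i`
    simp only [dirD, h1, if_false]
    simp only [setD, Finset.mem_filter, Finset.mem_univ, true_and, not_or, not_and, not_lt,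
      not_not] at h2
    rcases h2.1.eq_or_lt with h4 | h4
    · rw [← h4, neg_zero, max_self]
      have hwr := h3 h4.symm
      have : m * r ≤ m * w i := mul_le_mul_of_nonneg_left hwr hm0.le
      constructor <;> nlinarith
    · rw [max_eq_right (by linarith : -x i ≤ 0), max_eq_left h4.le]
      rw [if_neg h4.ne', abs_of_pos h4] at hεi
      rw [abs_of_pos h4] at hxi
      constructor
      · nlinarith
      · have : l * x i ≤ l * P := mul_le_mul_of_nonneg_left hxi hl0.le
        nlinarith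
  · -- `i ∉ W`, `x i < 0`
    simp only [dirD, h1, if_false]
    rw [max_eq_left (by linarith : 0 ≤ -x i), max_eq_right h2.le]
    have : m * (-x i + r) ≤ m * w i := mul_le_mul_of_nonneg_left h3 hm0.le
    constructor
    · nlinarith
    · nlinarith

/-- `K` has no least point, with a uniform gap. -/
theorem uniform_least {K : Set (Fin n → ℝ)} (hc : IsCompact K)
    (hB : ∀ z ∈ K, ∃ i, ∃ w ∈ K, w i < -z⁻ i) :
    ∃ η : ℝ, 0 < η ∧ ∀ z ∈ K, ∃ i, ∃ w ∈ K, w i + η ≤ -z⁻ i := by
  refine hc.induction_on (p := fun s => ∃ η : ℝ, 0 < η ∧ ∀ z ∈ s,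
    ∃ i, ∃ w ∈ K, w i + η ≤ -z⁻ i) ?_ ?_ ?_ ?_
  · exact ⟨1, one_pos, fun x hx => hx.elim⟩
  · rintro s t hst ⟨η, hη, h1⟩
    exact ⟨η, hη, fun x hx => h1 x (hst hx)⟩
  · rintro s t ⟨η, hη, h1⟩ ⟨η₂, hη₂, h2⟩
    refine ⟨min η η₂, lt_min hη hη₂, ?_⟩
    have hm1 := min_le_left η η₂
    have hm2 := min_le_right η η₂
    rintro x (hx | hx)
    · obtain ⟨i, w, hw, h⟩ := h1 x hx
      exact ⟨i, w, hw, by linarith⟩
    · obtain ⟨i, w, hw, h⟩ := h2 x hx
      exact ⟨i, w, hw, by linarith⟩
  · intro x hx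
    obtain ⟨i, w, hw, h⟩ := hB x hx
    refine ⟨{z | w i + (-x⁻ i - w i) / 2 < -z⁻ i}, ?_, (-x⁻ i - w i) / 2, by linarith, ?_⟩
    · apply mem_nhdsWithin_of_mem_nhds
      have hcont : Continuous fun z : Fin n → ℝ => -z⁻ i :=
        ((continuous_apply i).comp negPart_continuous).neg
      have ho : IsOpen {z : Fin n → ℝ | w i + (-x⁻ i - w i) / 2 < -z⁻ i} :=
        isOpen_lt continuous_const hcont
      exact ho.mem_nhds (show w i + (-x⁻ i - w i) / 2 < -x⁻ i by linarith)
    · intro z hz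
      exact ⟨i, w, hw, le_of_lt hz⟩

theorem diff_gen {K : Set (Fin n → ℝ)} (hK : Convex ℝ K) (hc : IsCompact K) (hL : LAB K)
    (hint : (interior K).Nonempty) (hD : ∀ x ∈ K, ∀ y ∈ K, x⁺ - y⁻ ∈ K) :
    Covered (2 ^ n) K ∧
      ((∀ z ∈ K, ∃ i, ∃ w ∈ K, w i < -z⁻ i) → Covered (2 ^ n - 1) K) := by
  classical
  have hne : K.Nonempty := hint.mono interior_subset
  obtain ⟨P, hP1, hP⟩ := bounded_coord hc
  have hP0 : 0 < P := by linarith
  obtain ⟨v, hv, hv0, hv1⟩ := exists_full hK hL hne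
  obtain ⟨w, hw, hw0, hw1⟩ := exists_full hK.neg (lab_neg hL) hne.neg
  obtain ⟨r, hr0, -, hr⟩ := exists_pos_le (ι := Fin n ⊕ Fin n) (fun s => Sum.elim
    (fun i => if 0 < v i then v i else 1) (fun i => if 0 < w i then w i else 1) s) (by
      rintro (i | i)
      · simp only [Sum.elim_inl]
        split_ifs with h
        · exact h
        · exact one_pos
      · simp only [Sum.elim_inr]
        split_ifs with h
        · exact h
        · exact one_pos)
  have hrv : ∀ i, (∃ x ∈ K, 0 < x i) → r ≤ v i := by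
    intro i hi
    have h1 := hr (Sum.inl i)
    simp only [Sum.elim_inl, if_pos (hv1 i hi)] at h1
    exact h1
  have hrw : ∀ i, (∃ x ∈ K, x i < 0) → r ≤ w i := by
    rintro i ⟨x, hx, hxi⟩
    have h1 := hr (Sum.inr i)
    have h2 := hw1 i ⟨-x, by rw [Set.mem_neg, neg_neg]; exact hx, by simpa using hxi⟩
    simp only [Sum.elim_inr, if_pos h2] at h1
    exact h1
  have hwK : -w ∈ K := hw
  constructor
  · set δ : ℝ := min 1 (r / (4 * P)) with hδ
    have hδ0 : 0 < δ := lt_min one_pos (by positivity)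
    have hδ1 : δ ≤ 1 := min_le_left _ _
    have hδr : 2 * P * δ < r := by
      have h1 : δ ≤ r / (4 * P) := min_le_right _ _
      have h2 : 2 * P * δ ≤ 2 * P * (r / (4 * P)) := mul_le_mul_of_nonneg_left h1 (by positivity)
      have h3 : 2 * P * (r / (4 * P)) = r / 2 := by field_simp; ring
      linarith
    refine (covered_of_illum hK hc ((Finset.univ : Finset (Finset (Fin n))).image
      (dirD K δ)) fun x hx => ?_).mono (Finset.card_image_le.trans (by simp))
    obtain ⟨ε, hε, h⟩ := illum_core hK hL hint hD hP1 hP hδ0 hδ1 hδr hv hv0 hrv hwK hw0 hx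
      (setD K x) (by
        intro i
        by_cases hi : i ∈ setD K x
        · exact Or.inl ⟨hi, hi⟩
        · refine Or.inr (Or.inl ⟨hi, hi, fun h0 => hrw i ?_⟩)
          simp only [setD, Finset.mem_filter, Finset.mem_univ, true_and, not_or, not_and,
            not_not] at hi
          exact hi.2 h0)
    exact ⟨_, Finset.mem_image_of_mem _ (Finset.mem_univ _), ε, hε, h⟩
  · intro hB
    obtain ⟨η, hη, hη'⟩ := uniform_least hc hB
    set ρ : ℝ := min r η with hρ
    have hρ0 : 0 < ρ := lt_min hr0 hη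
    have hρr : ρ ≤ r := min_le_left _ _
    have hρη : ρ ≤ η := min_le_right _ _
    set δ : ℝ := min 1 (ρ / (4 * P)) with hδ
    have hδ0 : 0 < δ := lt_min one_pos (by positivity)
    have hδ1 : δ ≤ 1 := min_le_left _ _
    have hδr : 2 * P * δ < ρ := by
      have h1 : δ ≤ ρ / (4 * P) := min_le_right _ _
      have h2 : 2 * P * δ ≤ 2 * P * (ρ / (4 * P)) := mul_le_mul_of_nonneg_left h1 (by positivity)
      have h3 : 2 * P * (ρ / (4 * P)) = ρ / 2 := by field_simp; ring
      linarith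
    have hcard : (((Finset.univ : Finset (Finset (Fin n))).erase Finset.univ).image
        (dirD K δ)).card ≤ 2 ^ n - 1 := by
      refine Finset.card_image_le.trans ?_
      rw [Finset.card_erase_of_mem (Finset.mem_univ _)]
      simp
    refine (covered_of_illum hK hc _ fun x hx => ?_).mono hcard
    by_cases hu : setD K x = Finset.univ
    · obtain ⟨i, z, hz, hzi⟩ := hη' x hx
      have hxi0 : 0 ≤ x⁻ i := by rw [negPart_apply']; exact le_max_right _ _
      have hzneg : z i < 0 := by linarith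
      have hzm : -z⁻ ∈ K := neg_mem' hL hz
      have hxneg : ∀ j, j ≠ i → j ∈ setD K x := fun j _ => by rw [hu]; exact Finset.mem_univ _
      have hxi : x i < 0 := by
        have : i ∈ setD K x := by rw [hu]; exact Finset.mem_univ _
        simp only [setD, Finset.mem_filter, Finset.mem_univ, true_and] at this
        rcases this with h | ⟨_, h⟩
        · exact h
        · exact absurd ⟨z, hz, hzneg⟩ h
      obtain ⟨ε, hε, h⟩ := illum_core hK hL hint hD hP1 hP hδ0 hδ1 hδr hv hv0
        (fun j hj => hρr.trans (hrv j hj)) hzm (fun j => by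
          rw [negPart_apply']; exact le_max_right _ _) hx (Finset.univ.erase i) (by
          intro j
          by_cases hj : j = i
          · subst hj
            refine Or.inr (Or.inr ⟨Finset.notMem_erase _ _, hxi, ?_⟩)
            rw [negPart_apply', max_eq_left (by linarith)]
            rw [negPart_apply', max_eq_left (by linarith)] at hzi
            linarith
          · exact Or.inl ⟨Finset.mem_erase.2 ⟨hj, Finset.mem_univ _⟩, hxneg j hj⟩)
      refine ⟨_, Finset.mem_image_of_mem _ (Finset.mem_erase.2 ⟨?_, Finset.mem_univ _⟩), ε, hε, h⟩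
      intro hcon
      exact Finset.notMem_erase i Finset.univ ((Finset.ext_iff.1 hcon i).2 (Finset.mem_univ i))
    · obtain ⟨ε, hε, h⟩ := illum_core hK hL hint hD hP1 hP hδ0 hδ1 hδr hv hv0
        (fun j hj => hρr.trans (hrv j hj)) hwK hw0 hx
        (setD K x) (by
          intro i
          by_cases hi : i ∈ setD K x
          · exact Or.inl ⟨hi, hi⟩
          · refine Or.inr (Or.inl ⟨hi, hi, fun h0 => hρr.trans (hrw i ?_)⟩)
            simp only [setD, Finset.mem_filter, Finset.mem_univ, true_and, not_or, not_and,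
              not_not] at hi
            exact hi.2 h0)
      exact ⟨_, Finset.mem_image_of_mem _ (Finset.mem_erase.2 ⟨hu, Finset.mem_univ _⟩), ε, hε, h⟩

theorem covered_neg {K : Set (Fin n → ℝ)} {N : ℕ} (h : Covered N (-K)) : Covered N K := by
  classical
  obtain ⟨T, hT, hcov⟩ := h
  refine ⟨T.image fun t => -t, Finset.card_image_le.trans hT, fun x hx => ?_⟩
  have hx' : -x ∈ -K := by rw [Set.mem_neg, neg_neg]; exact hx
  have := hcov hx'
  simp only [Set.mem_iUnion] at this ⊢
  obtain ⟨t, ht, y, hy, hyx⟩ := this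
  rw [interior_neg', Set.mem_neg] at hy
  refine ⟨-t, Finset.mem_image_of_mem _ ht, -y, hy, ?_⟩
  have : t + y = -x := hyx
  show -t + -y = x
  rw [← neg_add, this, neg_neg]

/-- **Differences of anti-blocking bodies.** -/
theorem difference {K : Set (Fin n → ℝ)} (hK : Convex ℝ K) (hc : IsCompact K) (hL : LAB K)
    (hint : (interior K).Nonempty) (hD : ∀ x ∈ K, ∀ y ∈ K, x⁺ - y⁻ ∈ K) :
    Covered (2 ^ n) K ∧ ((¬ ∃ l u, K = Set.Icc l u) → Covered (2 ^ n - 1) K) := by
  refine ⟨(diff_gen hK hc hL hint hD).1, fun hbox => ?_⟩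
  by_cases hB : ∀ z ∈ K, ∃ i, ∃ w ∈ K, w i < -z⁻ i
  · exact (diff_gen hK hc hL hint hD).2 hB
  by_cases hA : ∀ z ∈ -K, ∃ i, ∃ w ∈ -K, w i < -z⁻ i
  · refine covered_neg ((diff_gen hK.neg ?_ (lab_neg hL) ?_ ?_).2 hA)
    · exact hc.neg
    · rw [interior_neg']; exact hint.neg
    · intro x hx y hy
      rw [Set.mem_neg] at hx hy ⊢
      have := hD _ hy _ hx
      rw [posPart_neg, negPart_neg] at this
      have e : -(x⁺ - y⁻) = y⁻ - x⁺ := by abel
      rw [e]; exact this
  exfalso
  apply hbox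
  push Not at hA hB
  obtain ⟨z, hz, hz1⟩ := hB
  obtain ⟨w, hw, hw1⟩ := hA
  rw [Set.mem_neg] at hw
  have hwm := pos_mem hL hw
  rw [posPart_neg] at hwm
  refine ⟨-z⁻, w⁻, ?_⟩
  ext x
  constructor
  · intro hx
    refine ⟨fun i => by simpa using hz1 i x hx, fun i => ?_⟩
    have := hw1 i (-x) (by rw [Set.mem_neg, neg_neg]; exact hx)
    simpa using this
  · rintro ⟨h1, h2⟩
    have hcor := cor_of_diff hL hD hwm (neg_mem' hL hz)
      (fun i => by rw [negPart_apply']; exact le_max_right _ _)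
      (fun i => by rw [negPart_apply']; exact le_max_right _ _)
    exact hcor.2.2 x fun i => ⟨h1 i, h2 i⟩

end Pool.Agent.Q39.HD
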