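import Mathlib
import Pool.Agent.Q39.HD.Diff

set_option autoImplicit false

/-!
# Sums `⋃ (s A - t B)` of anti-blocking bodies
-/

namespace Pool.Agent.Q39.HD

open Set

variable {n : ℕ}

/-- Anti-blocking bodies (convex corners). -/
structure Corner {n : ℕ} (A : Set (Fin n → ℝ)) : Prop where
  conv : Convex ℝ A
  comp : IsCompact A
  int : (interior A).Nonempty
  nonneg : ∀ x ∈ A, ∀ i, 0 ≤ x i
  lower : ∀ x ∈ A, ∀ y : Fin n → ℝ, (∀ i, 0 ≤ y i ∧ y i ≤ x i) → y ∈ A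

/-- The union of the bodies `s A - t B`, `(s, t) ∈ M`. -/
def MSum (M : Set (Fin 2 → ℝ)) (A B : Set (Fin n → ℝ)) : Set (Fin n → ℝ) :=
  {x | ∃ p ∈ M, ∃ a ∈ A, ∃ b ∈ B, x = p 0 • a - p 1 • b}

theorem Corner.const {A : Set (Fin n → ℝ)} (hA : Corner A) :
    ∃ r : ℝ, 0 < r ∧ (fun _ => r) ∈ A := by
  obtain ⟨z, hz⟩ := hA.int
  obtain ⟨η, hη, h⟩ := const_add_mem_nhds hz
  refine ⟨2 * η, by positivity, hA.lower _ (interior_subset h) _ fun i => ⟨by positivity, ?_⟩⟩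
  have := hA.nonneg z (interior_subset hz) i
  simp only [Pi.add_apply]
  linarith

theorem Corner.zero {A : Set (Fin n → ℝ)} (hA : Corner A) : (0 : Fin n → ℝ) ∈ A := by
  obtain ⟨r, hr, h⟩ := hA.const
  exact hA.lower _ h _ fun i => ⟨le_refl _, hr.le⟩

theorem comb {A : Set (Fin n → ℝ)} (hA : Convex ℝ A) {a a' : Fin n → ℝ} (ha : a ∈ A)
    (ha' : a' ∈ A) {u v : ℝ} (hu : 0 ≤ u) (hv : 0 ≤ v) :
    ∃ c ∈ A, ∀ i, u * a i + v * a' i = (u + v) * c i := by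
  rcases (add_nonneg hu hv).eq_or_lt with h | h
  · have hu0 : u = 0 := by linarith
    have hv0 : v = 0 := by linarith
    exact ⟨a, ha, fun i => by simp [hu0, hv0]⟩
  · refine ⟨(u / (u + v)) • a + (v / (u + v)) • a', hA ha ha' (by positivity) (by positivity)
      (by field_simp), fun i => ?_⟩
    simp only [Pi.add_apply, Pi.smul_apply, smul_eq_mul]
    field_simp

theorem mem_msum {M : Set (Fin 2 → ℝ)} {A B : Set (Fin n → ℝ)} (hM : Corner M) (hA : Corner A)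
    (hB : Corner B) (x : Fin n → ℝ) :
    x ∈ MSum M A B ↔ ∃ p ∈ M, ∃ a ∈ A, ∃ b ∈ B, ∀ i, -(p 1 * b i) ≤ x i ∧ x i ≤ p 0 * a i := by
  constructor
  · rintro ⟨p, hp, a, ha, b, hb, rfl⟩
    refine ⟨p, hp, a, ha, b, hb, fun i => ?_⟩
    have h1 := mul_nonneg (hM.nonneg p hp 0) (hA.nonneg a ha i)
    have h2 := mul_nonneg (hM.nonneg p hp 1) (hB.nonneg b hb i)
    simp only [Pi.sub_apply, Pi.smul_apply, smul_eq_mul]
    constructor <;> linarith
  · rintro ⟨p, hp, a, ha, b, hb, h⟩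
    have hp0 := hM.nonneg p hp 0
    have hp1 := hM.nonneg p hp 1
    have h1 : ∀ i, x⁺ i ≤ p 0 * a i := fun i => by
      rw [posPart_apply']
      exact max_le (h i).2 (mul_nonneg hp0 (hA.nonneg a ha i))
    have h2 : ∀ i, x⁻ i ≤ p 1 * b i := fun i => by
      rw [negPart_apply']
      exact max_le (by linarith [(h i).1]) (mul_nonneg hp1 (hB.nonneg b hb i))
    have h1' : ∀ i, 0 ≤ x⁺ i := fun i => by rw [posPart_apply']; exact le_max_right _ _
    have h2' : ∀ i, 0 ≤ x⁻ i := fun i => by rw [negPart_apply']; exact le_max_right _ _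
    have key : ∀ (s : ℝ) (_ : 0 ≤ s) (c z : Fin n → ℝ) (_ : ∀ i, 0 ≤ c i) (_ : ∀ i, 0 ≤ z i)
        (_ : ∀ i, z i ≤ s * c i), (∀ i, 0 ≤ (s⁻¹ • z) i ∧ (s⁻¹ • z) i ≤ c i) ∧
          s • (s⁻¹ • z) = z := by
      intro s hs c z hc hz hzc
      rcases hs.eq_or_lt with h | h
      · subst h
        refine ⟨fun i => by simp [hc i], ?_⟩
        funext i
        have := hzc i
        have := hz i
        simp only [zero_mul] at *
        simp
        linarith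
      · refine ⟨fun i => ⟨?_, ?_⟩, ?_⟩
        · simp only [Pi.smul_apply, smul_eq_mul]
          exact mul_nonneg (inv_nonneg.2 h.le) (hz i)
        · simp only [Pi.smul_apply, smul_eq_mul]
          rw [inv_mul_le_iff₀ h]
          exact hzc i
        · rw [smul_smul, mul_inv_cancel₀ h.ne', one_smul]
    obtain ⟨k1, k2⟩ := key (p 0) hp0 a x⁺ (hA.nonneg a ha) h1' h1
    obtain ⟨k3, k4⟩ := key (p 1) hp1 b x⁻ (hB.nonneg b hb) h2' h2
    refine ⟨p, hp, _, hA.lower a ha _ k1, _, hB.lower b hb _ k3, ?_⟩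
    rw [k2, k4, posPart_sub_negPart]

theorem msum_lab {M : Set (Fin 2 → ℝ)} {A B : Set (Fin n → ℝ)} (hM : Corner M) (hA : Corner A)
    (hB : Corner B) : LAB (MSum M A B) := by
  intro x hx y hy
  rw [mem_msum hM hA hB] at hx ⊢
  obtain ⟨p, hp, a, ha, b, hb, h⟩ := hx
  refine ⟨p, hp, a, ha, b, hb, fun i => ?_⟩
  have h1 := mul_nonneg (hM.nonneg p hp 0) (hA.nonneg a ha i)
  have h2 := mul_nonneg (hM.nonneg p hp 1) (hB.nonneg b hb i)
  have := h i
  rcases hy i with ⟨h3, h4⟩ | ⟨h3, h4⟩ <;> constructor <;> linarith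

theorem msum_convex {M : Set (Fin 2 → ℝ)} {A B : Set (Fin n → ℝ)} (hM : Corner M)
    (hA : Corner A) (hB : Corner B) : Convex ℝ (MSum M A B) := by
  intro x hx x' hx' u v hu hv huv
  rw [mem_msum hM hA hB] at hx hx' ⊢
  obtain ⟨p, hp, a, ha, b, hb, h⟩ := hx
  obtain ⟨p', hp', a', ha', b', hb', h'⟩ := hx'
  obtain ⟨c, hc, hc'⟩ := comb hA.conv ha ha' (mul_nonneg hu (hM.nonneg p hp 0))
    (mul_nonneg hv (hM.nonneg p' hp' 0))
  obtain ⟨d, hd, hd'⟩ := comb hB.conv hb hb' (mul_nonneg hu (hM.nonneg p hp 1))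
    (mul_nonneg hv (hM.nonneg p' hp' 1))
  refine ⟨u • p + v • p', hM.conv hp hp' hu hv huv, c, hc, d, hd, fun i => ?_⟩
  simp only [Pi.add_apply, Pi.smul_apply, smul_eq_mul]
  rw [← hc' i, ← hd' i]
  have h1 := h i
  have h2 := h' i
  have k1 := mul_le_mul_of_nonneg_left h1.1 hu
  have k2 := mul_le_mul_of_nonneg_left h1.2 hu
  have k3 := mul_le_mul_of_nonneg_left h2.1 hv
  have k4 := mul_le_mul_of_nonneg_left h2.2 hv
  constructor <;> linarith

theorem msum_compact {M : Set (Fin 2 → ℝ)} {A B : Set (Fin n → ℝ)} (hM : Corner M)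
    (hA : Corner A) (hB : Corner B) : IsCompact (MSum M A B) := by
  have h : MSum M A B = (fun q : (Fin 2 → ℝ) × ((Fin n → ℝ) × (Fin n → ℝ)) =>
      q.1 0 • q.2.1 - q.1 1 • q.2.2) '' (M ×ˢ (A ×ˢ B)) := by
    ext x
    constructor
    · rintro ⟨p, hp, a, ha, b, hb, rfl⟩
      exact ⟨(p, (a, b)), ⟨hp, ha, hb⟩, rfl⟩
    · rintro ⟨⟨p, a, b⟩, ⟨hp, ha, hb⟩, rfl⟩
      exact ⟨p, hp, a, ha, b, hb, rfl⟩
  rw [h]
  exact (hM.comp.prod (hA.comp.prod hB.comp)).image (by fun_prop)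

theorem msum_interior {M : Set (Fin 2 → ℝ)} {A B : Set (Fin n → ℝ)} (hM : Corner M)
    (hA : Corner A) (hB : Corner B) {p : Fin 2 → ℝ} (hp : p ∈ M) {a b : Fin n → ℝ} (ha : a ∈ A)
    (hb : b ∈ B) {y : Fin n → ℝ} (hy : ∀ i, -(p 1 * b i) < y i ∧ y i < p 0 * a i) :
    y ∈ interior (MSum M A B) := by
  have hc : (p 0 • a, p 1 • b) ∈ Cor (MSum M A B) := by
    refine ⟨fun i => ?_, fun i => ?_, fun z hz => ?_⟩
    · exact mul_nonneg (hM.nonneg p hp 0) (hA.nonneg a ha i)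
    · exact mul_nonneg (hM.nonneg p hp 1) (hB.nonneg b hb i)
    · rw [mem_msum hM hA hB]
      exact ⟨p, hp, a, ha, b, hb, hz⟩
  exact mem_interior_of_cor hc hy

theorem msum_nonempty {M : Set (Fin 2 → ℝ)} {A B : Set (Fin n → ℝ)} (hM : Corner M)
    (hA : Corner A) (hB : Corner B) : (interior (MSum M A B)).Nonempty := by
  obtain ⟨m, hm, hm'⟩ := hM.const
  obtain ⟨r, hr, hr'⟩ := hA.const
  obtain ⟨s, hs, hs'⟩ := hB.const
  refine ⟨0, msum_interior hM hA hB hm' hr' hs' fun i => ?_⟩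
  simp only [Pi.zero_apply]
  have := mul_pos hm hr
  have := mul_pos hm hs
  constructor <;> linarith

theorem msum_rect {M : Set (Fin 2 → ℝ)} {A B : Set (Fin n → ℝ)} (hM : Corner M)
    (hA : Corner A) (hB : Corner B) (hrect : ∃ c, M = Set.Icc 0 c) :
    ∀ x ∈ MSum M A B, ∀ y ∈ MSum M A B, x⁺ - y⁻ ∈ MSum M A B := by
  obtain ⟨c, hc⟩ := hrect
  intro x hx y hy
  rw [mem_msum hM hA hB] at hx hy ⊢
  obtain ⟨p, hp, a, ha, b, hb, h⟩ := hx
  obtain ⟨p', hp', a', ha', b', hb', h'⟩ := hy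
  have hcM : c ∈ M := by
    rw [hc]
    rw [hc] at hp
    exact ⟨hp.1.trans hp.2, le_refl _⟩
  refine ⟨c, hcM, a, ha, b', hb', fun i => ?_⟩
  simp only [Pi.sub_apply, posPart_apply', negPart_apply']
  have hpc : p 0 ≤ c 0 := by rw [hc] at hp; exact hp.2 0
  have hpc' : p' 1 ≤ c 1 := by rw [hc] at hp'; exact hp'.2 1
  have k1 : p 0 * a i ≤ c 0 * a i := mul_le_mul_of_nonneg_right hpc (hA.nonneg a ha i)
  have k2 : p' 1 * b' i ≤ c 1 * b' i := mul_le_mul_of_nonneg_right hpc' (hB.nonneg b' hb' i)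
  have k3 : 0 ≤ p 0 * a i := mul_nonneg (hM.nonneg p hp 0) (hA.nonneg a ha i)
  have k4 : 0 ≤ p' 1 * b' i := mul_nonneg (hM.nonneg p' hp' 1) (hB.nonneg b' hb' i)
  have e1 : max (x i) 0 ≤ c 0 * a i := max_le ((h i).2.trans k1) (k3.trans k1)
  have e2 : max (-y i) 0 ≤ c 1 * b' i := max_le (by linarith [(h' i).1]) (k4.trans k2)
  have e3 := le_max_right (x i) 0
  have e4 := le_max_right (-y i) 0
  constructor <;> linarith

theorem q_aux {M : Set (Fin 2 → ℝ)} (hM : Corner M) {u : Fin 2 → ℝ} (hu : u ∈ M) (j : Fin 2)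
    {t : ℝ} (ht : t < u j) (ht0 : 0 ≤ t) : ∃ q ∈ M, t < q j ∧ ∀ k, 0 < q k := by
  obtain ⟨m, hm, hm'⟩ := hM.const
  have hu0 : 0 < u j := by linarith
  set κ : ℝ := (u j - t) / (2 * u j) with hκ
  have hκ0 : 0 < κ := div_pos (by linarith) (by linarith)
  have hκu : κ * u j = (u j - t) / 2 := by rw [hκ]; field_simp
  have hκ1 : κ ≤ 1 / 2 := by
    rw [hκ, div_le_iff₀ (by linarith)]
    linarith
  refine ⟨(1 - κ) • u + κ • (fun _ => m), hM.conv hu hm' (by linarith) hκ0.le (by ring), ?_,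
    fun k => ?_⟩
  · simp only [Pi.add_apply, Pi.smul_apply, smul_eq_mul]
    have := mul_pos hκ0 hm
    nlinarith
  · simp only [Pi.add_apply, Pi.smul_apply, smul_eq_mul]
    have := mul_pos hκ0 hm
    have := mul_nonneg (by linarith : 0 ≤ 1 - κ) (hM.nonneg u hu k)
    linarith

theorem a_aux {A : Set (Fin n → ℝ)} (hA : Corner A) {a : Fin n → ℝ} (ha : a ∈ A) {p q : ℝ}
    (hp : 0 ≤ p) (hpq : p < q) : ∃ c ∈ A, ∀ i, p * a i < q * c i := by
  obtain ⟨r, hr, hr'⟩ := hA.const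
  obtain ⟨c, hc, h⟩ := comb hA.conv ha hr' hp (sub_nonneg.2 hpq.le)
  refine ⟨c, hc, fun i => ?_⟩
  have := h i
  have h2 : 0 < (q - p) * r := mul_pos (by linarith) hr
  have e : p + (q - p) = q := by ring
  rw [e] at this
  linarith

theorem msum_sep {M : Set (Fin 2 → ℝ)} {A B : Set (Fin n → ℝ)} (hM : Corner M)
    (hA : Corner A) (hB : Corner B) (hrect : ¬ ∃ c, M = Set.Icc 0 c) :
    ∀ x ∈ MSum M A B, x⁺ ∈ interior (MSum M A B) ∨ -x⁻ ∈ interior (MSum M A B) := by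
  obtain ⟨u, hu, hu'⟩ := hM.comp.exists_isMaxOn ⟨0, hM.zero⟩
    (continuous_apply (0 : Fin 2)).continuousOn
  obtain ⟨v, hv, hv'⟩ := hM.comp.exists_isMaxOn ⟨0, hM.zero⟩
    (continuous_apply (1 : Fin 2)).continuousOn
  obtain ⟨r, hr, hr'⟩ := hA.const
  obtain ⟨s, hs, hs'⟩ := hB.const
  intro x hx
  rw [mem_msum hM hA hB] at hx
  obtain ⟨p, hp, a, ha, b, hb, h⟩ := hx
  have hp0 := hM.nonneg p hp 0
  have hp1 := hM.nonneg p hp 1
  have h1 : ∀ i, x⁺ i ≤ p 0 * a i := fun i => by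
    rw [posPart_apply']
    exact max_le (h i).2 (mul_nonneg hp0 (hA.nonneg a ha i))
  have h2 : ∀ i, x⁻ i ≤ p 1 * b i := fun i => by
    rw [negPart_apply']
    exact max_le (by linarith [(h i).1]) (mul_nonneg hp1 (hB.nonneg b hb i))
  have h1' : ∀ i, 0 ≤ x⁺ i := fun i => by rw [posPart_apply']; exact le_max_right _ _
  have h2' : ∀ i, 0 ≤ x⁻ i := fun i => by rw [negPart_apply']; exact le_max_right _ _
  by_cases hc0 : p 0 < u 0
  · left
    obtain ⟨q, hq, hq1, hq2⟩ := q_aux hM hu 0 hc0 hp0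
    obtain ⟨c, hc, hc'⟩ := a_aux hA ha hp0 hq1
    refine msum_interior hM hA hB hq hc hs' fun i => ⟨?_, ?_⟩
    · have := mul_pos (hq2 1) hs
      linarith [h1' i]
    · exact (h1 i).trans_lt (hc' i)
  by_cases hc1 : p 1 < v 1
  · right
    obtain ⟨q, hq, hq1, hq2⟩ := q_aux hM hv 1 hc1 hp1
    obtain ⟨c, hc, hc'⟩ := a_aux hB hb hp1 hq1
    refine msum_interior hM hA hB hq hr' hc fun i => ⟨?_, ?_⟩
    · rw [Pi.neg_apply]
      exact neg_lt_neg ((h2 i).trans_lt (hc' i))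
    · rw [Pi.neg_apply]
      have := mul_pos (hq2 0) hr
      linarith [h2' i]
  exfalso
  apply hrect
  refine ⟨![u 0, v 1], ?_⟩
  have hcM : ![u 0, v 1] ∈ M := by
    refine hM.lower p hp _ fun i => ?_
    fin_cases i
    · exact ⟨hM.nonneg u hu 0, not_lt.1 hc0⟩
    · exact ⟨hM.nonneg v hv 1, not_lt.1 hc1⟩
  ext z
  constructor
  · intro hz
    refine ⟨fun i => hM.nonneg z hz i, fun i => ?_⟩
    fin_cases i
    · exact hu' hz
    · exact hv' hz
  · rintro ⟨hz1, hz2⟩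
    exact hM.lower _ hcM _ fun i => ⟨hz1 i, hz2 i⟩

end Pool.Agent.Q39.HD
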