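import Mathlib
import Pool.Agent.Q39.HD.MSum

set_option autoImplicit false

/-!
# Polar bodies of locally anti-blocking bodies
-/

namespace Pool.Agent.Q39.HD

open Set

variable {n : ℕ}

/-- The polar set. -/
def pol (C : Set (Fin n → ℝ)) : Set (Fin n → ℝ) := {a | ∀ x ∈ C, ∑ i, a i * x i ≤ 1}

/-- Every point is on a segment between a nonnegative and a nonpositive point. -/
def Joined (C : Set (Fin n → ℝ)) : Prop :=
  ∀ x ∈ C, ∃ y ∈ C, ∃ z ∈ C, 0 ≤ y ∧ z ≤ 0 ∧ x ∈ segment ℝ y z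

/-- No segment between a nonnegative and a nonpositive point is in the boundary. -/
def Bulging (C : Set (Fin n → ℝ)) : Prop :=
  ∀ y ∈ C, ∀ z ∈ C, 0 ≤ y → z ≤ 0 → (1 / 2 : ℝ) • (y + z) ∈ interior C

theorem pol_lab {C : Set (Fin n → ℝ)} (hL : LAB C) : LAB (pol C) := by
  intro a ha c hc x hx
  set x' : Fin n → ℝ := fun i => if 0 < a i * x i then x i else 0 with hx'
  have hx'C : x' ∈ C := by
    refine hL x hx x' fun i => ?_
    simp only [hx']
    split_ifs with h
    · rcases le_total 0 (x i) with h0 | h0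
      · exact Or.inl ⟨h0, le_refl _⟩
      · exact Or.inr ⟨le_refl _, h0⟩
    · rcases le_total 0 (x i) with h0 | h0
      · exact Or.inl ⟨le_refl _, h0⟩
      · exact Or.inr ⟨h0, le_refl _⟩
  refine (Finset.sum_le_sum fun i _ => ?_).trans (ha x' hx'C)
  simp only [hx']
  split_ifs with h
  · rcases hc i with h1 | h1
    · have ha0 : 0 ≤ a i := h1.1.trans h1.2
      have hx0 : 0 < x i := by
        by_contra hcon
        have := mul_nonpos_of_nonneg_of_nonpos ha0 (not_lt.1 hcon)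
        linarith
      exact mul_le_mul_of_nonneg_right h1.2 hx0.le
    · have ha0 : a i ≤ 0 := h1.1.trans h1.2
      have hx0 : x i < 0 := by
        by_contra hcon
        have := mul_nonpos_of_nonpos_of_nonneg ha0 (not_lt.1 hcon)
        linarith
      exact mul_le_mul_of_nonpos_right h1.1 hx0.le
  · rw [mul_zero]
    have hax : a i * x i ≤ 0 := not_lt.1 h
    rcases hc i with h1 | h1
    · rcases le_total 0 (x i) with h0 | h0
      · exact (mul_le_mul_of_nonneg_right h1.2 h0).trans hax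
      · exact mul_nonpos_of_nonneg_of_nonpos h1.1 h0
    · rcases le_total 0 (x i) with h0 | h0
      · exact mul_nonpos_of_nonpos_of_nonneg h1.2 h0
      · exact (mul_le_mul_of_nonpos_right h1.1 h0).trans hax

theorem pol_diff {C : Set (Fin n → ℝ)} (hL : LAB C) (hJ : Joined C) :
    ∀ a ∈ pol C, ∀ b ∈ pol C, a⁺ - b⁻ ∈ pol C := by
  intro a ha b hb x hx
  obtain ⟨y, hy, z, hz, hy0, hz0, s, t, hs, ht, hst, rfl⟩ := hJ x hx
  have h1 := pos_mem (pol_lab hL) ha y hy
  have h2 := neg_mem' (pol_lab hL) hb z hz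
  have e1 : ∀ i, (a⁺ - b⁻) i * (s • y + t • z) i ≤ s * (a⁺ i * y i) + t * ((-b⁻) i * z i) := by
    intro i
    simp only [Pi.sub_apply, Pi.add_apply, Pi.smul_apply, smul_eq_mul, Pi.neg_apply,
      posPart_apply', negPart_apply']
    have k1 := le_max_right (a i) 0
    have k2 := le_max_right (-b i) 0
    have k3 : 0 ≤ s * y i := mul_nonneg hs (hy0 i)
    have k4 : t * z i ≤ 0 := mul_nonpos_of_nonneg_of_nonpos ht (hz0 i)
    nlinarith [mul_nonneg k2 k3, mul_nonpos_of_nonneg_of_nonpos k1 k4]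
  refine (Finset.sum_le_sum fun i _ => e1 i).trans ?_
  rw [Finset.sum_add_distrib, ← Finset.mul_sum, ← Finset.mul_sum]
  calc s * ∑ i, a⁺ i * y i + t * ∑ i, (-b⁻) i * z i ≤ s * 1 + t * 1 :=
        add_le_add (mul_le_mul_of_nonneg_left h1 hs) (mul_le_mul_of_nonneg_left h2 ht)
    _ = 1 := by rw [mul_one, mul_one, hst]

theorem pol_interior {C : Set (Fin n → ℝ)} (hc : IsCompact C) {a : Fin n → ℝ}
    (h : ∀ x ∈ C, ∑ i, a i * x i < 1) : a ∈ interior (pol C) := by
  have hop : IsOpen {p : (Fin n → ℝ) × (Fin n → ℝ) | ∑ i, p.1 i * p.2 i < 1} :=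
    isOpen_lt (by fun_prop) continuous_const
  obtain ⟨u, v, hu, -, hau, hCv, huv⟩ := generalized_tube_lemma (isCompact_singleton (x := a)) hc hop
    (by
      rintro ⟨p, q⟩ ⟨h1, h2⟩
      rw [mem_singleton_iff] at h1
      subst h1
      exact h q h2)
  rw [mem_interior]
  refine ⟨u, fun b hb x hx => ?_, hu, hau rfl⟩
  exact (huv (show (b, x) ∈ u ×ˢ v from ⟨hb, hCv hx⟩) : _ < _).le

theorem pol_sep {C : Set (Fin n → ℝ)} (hc : IsCompact C) (hL : LAB C) (hB : Bulging C) :
    ∀ a ∈ pol C, a⁺ ∈ interior (pol C) ∨ -a⁻ ∈ interior (pol C) := by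
  intro a ha
  by_contra hcon
  push Not at hcon
  obtain ⟨hp, hm⟩ := hcon
  obtain ⟨y, hy, hy1⟩ : ∃ y ∈ C, 1 ≤ ∑ i, a⁺ i * y i := by
    by_contra h
    push Not at h
    exact hp (pol_interior hc h)
  obtain ⟨z, hz, hz1⟩ : ∃ z ∈ C, 1 ≤ ∑ i, (-a⁻) i * z i := by
    by_contra h
    push Not at h
    exact hm (pol_interior hc h)
  set y' : Fin n → ℝ := fun i => if 0 < a i ∧ 0 < y i then y i else 0 with hy'
  set z' : Fin n → ℝ := fun i => if a i < 0 ∧ z i < 0 then z i else 0 with hz'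
  have hy'0 : 0 ≤ y' := fun i => by
    simp only [hy', Pi.zero_apply]
    split_ifs with h
    · exact h.2.le
    · exact le_refl _
  have hz'0 : z' ≤ 0 := fun i => by
    simp only [hz', Pi.zero_apply]
    split_ifs with h
    · exact h.2.le
    · exact le_refl _
  have hy'C : y' ∈ C := by
    refine hL y hy y' fun i => ?_
    simp only [hy']
    split_ifs with h
    · exact Or.inl ⟨h.2.le, le_refl _⟩
    · rcases le_total 0 (y i) with h0 | h0
      · exact Or.inl ⟨le_refl _, h0⟩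
      · exact Or.inr ⟨h0, le_refl _⟩
  have hz'C : z' ∈ C := by
    refine hL z hz z' fun i => ?_
    simp only [hz']
    split_ifs with h
    · exact Or.inr ⟨le_refl _, h.2.le⟩
    · rcases le_total 0 (z i) with h0 | h0
      · exact Or.inl ⟨le_refl _, h0⟩
      · exact Or.inr ⟨h0, le_refl _⟩
  have h1 : 1 ≤ ∑ i, a i * y' i := by
    refine hy1.trans (Finset.sum_le_sum fun i _ => ?_)
    simp only [hy', posPart_apply']
    split_ifs with h
    · rw [max_eq_left h.1.le]
    · rw [mul_zero]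
      rcases lt_or_ge 0 (a i) with h0 | h0
      · have : y i ≤ 0 := by
          by_contra h3
          exact h ⟨h0, not_le.1 h3⟩
        rw [max_eq_left h0.le]
        exact mul_nonpos_of_nonneg_of_nonpos h0.le this
      · rw [max_eq_right h0, zero_mul]
  have h2 : 1 ≤ ∑ i, a i * z' i := by
    refine hz1.trans (Finset.sum_le_sum fun i _ => ?_)
    simp only [hz', negPart_apply', Pi.neg_apply]
    split_ifs with h
    · rw [max_eq_left (by linarith [h.1]), neg_neg]
    · rw [mul_zero]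
      rcases lt_or_ge (a i) 0 with h0 | h0
      · have : 0 ≤ z i := by
          by_contra h3
          exact h ⟨h0, not_le.1 h3⟩
        rw [max_eq_left (by linarith), neg_neg]
        exact mul_nonpos_of_nonpos_of_nonneg h0.le this
      · rw [max_eq_right (by linarith), neg_zero, zero_mul]
  have hmid := hB y' hy'C z' hz'C hy'0 hz'0
  set m : Fin n → ℝ := (1 / 2 : ℝ) • (y' + z') with hm'
  have h3 : 1 ≤ ∑ i, a i * m i := by
    have e : ∑ i, a i * m i = (∑ i, a i * y' i + ∑ i, a i * z' i) / 2 := by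
      rw [← Finset.sum_add_distrib, Finset.sum_div]
      refine Finset.sum_congr rfl fun i _ => ?_
      simp only [hm', Pi.smul_apply, Pi.add_apply, smul_eq_mul]
      ring
    rw [e]; linarith
  -- move in the direction of `a`
  obtain ⟨ε, hε, hmem⟩ : ∃ ε : ℝ, 0 < ε ∧ m + ε • a ∈ C := by
    have hcont : Continuous fun ε : ℝ => m + ε • a := by fun_prop
    have h0 : (fun ε : ℝ => m + ε • a) 0 ∈ interior C := by simpa using hmid
    have := (isOpen_interior.preimage hcont).mem_nhds h0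
    obtain ⟨r, hr, hball⟩ := Metric.mem_nhds_iff.1 this
    refine ⟨r / 2, by positivity, interior_subset (hball ?_)⟩
    rw [Metric.mem_ball, dist_zero_right, Real.norm_eq_abs, abs_of_pos (by positivity)]
    linarith
  have h4 := ha _ hmem
  have h5 : ∑ i, a i * (m + ε • a) i = ∑ i, a i * m i + ε * ∑ i, a i ^ 2 := by
    rw [Finset.mul_sum, ← Finset.sum_add_distrib]
    refine Finset.sum_congr rfl fun i _ => ?_
    simp only [Pi.add_apply, Pi.smul_apply, smul_eq_mul]
    ring
  rw [h5] at h4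
  have h6 : ∑ i, a i ^ 2 = 0 := by
    have : 0 ≤ ∑ i, a i ^ 2 := Finset.sum_nonneg fun i _ => sq_nonneg _
    nlinarith
  have h7 : ∀ i, a i = 0 := by
    intro i
    have := (Finset.sum_eq_zero_iff_of_nonneg fun i _ => sq_nonneg (a i)).1 h6 i (Finset.mem_univ i)
    exact pow_eq_zero_iff (two_ne_zero) |>.1 this
  simp only [h7, zero_mul, Finset.sum_const_zero] at h1
  linarith

/-- The sums over a triangle. -/
theorem msum_joined {M : Set (Fin 2 → ℝ)} {A B : Set (Fin n → ℝ)} (hM : Corner M)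
    (hA : Corner A) (hB : Corner B) {α β : ℝ} (hα : 0 < α) (hβ : 0 < β)
    (hT : M = {p | 0 ≤ p 0 ∧ 0 ≤ p 1 ∧ p 0 / α + p 1 / β ≤ 1}) : Joined (MSum M A B) := by
  intro x hx
  obtain ⟨p, hp, a, ha, b, hb, h⟩ := (mem_msum hM hA hB x).1 hx
  have hαM : ![α, 0] ∈ M := by
    rw [hT]
    refine ⟨hα.le, le_refl _, ?_⟩
    simp [hα.ne']
  have hβM : ![0, β] ∈ M := by
    rw [hT]
    refine ⟨le_refl _, hβ.le, ?_⟩
    simp [hβ.ne']
  obtain ⟨hp0, hp1, hp2⟩ : 0 ≤ p 0 ∧ 0 ≤ p 1 ∧ p 0 / α + p 1 / β ≤ 1 := by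
    rw [hT] at hp; exact hp
  have ha0 := hA.nonneg a ha
  have hb0 := hB.nonneg b hb
  set s : ℝ := p 0 / α with hs
  set t : ℝ := 1 - s with ht
  have hs0 : 0 ≤ s := by positivity
  have hq : p 1 / β ≤ t := by rw [ht]; linarith
  have ht0 : 0 ≤ t := (div_nonneg hp1 hβ.le).trans hq
  have hps : p 0 = s * α := by rw [hs]; field_simp
  have hpt : p 1 ≤ t * β := by rwa [div_le_iff₀ hβ] at hq
  refine ⟨s⁻¹ • x⁺, ?_, t⁻¹ • (-x⁻), ?_, ?_, ?_, s, t, hs0, ht0, by rw [ht]; ring, ?_⟩
  · rw [mem_msum hM hA hB]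
    refine ⟨_, hαM, a, ha, b, hb, fun i => ?_⟩
    simp only [Pi.smul_apply, smul_eq_mul, posPart_apply', Matrix.cons_val_zero,
      Matrix.cons_val_one, Matrix.cons_val_fin_one, zero_mul, neg_zero]
    have h1 := le_max_right (x i) 0
    refine ⟨mul_nonneg (inv_nonneg.2 hs0) h1, ?_⟩
    rcases hs0.eq_or_lt with h0 | h0
    · rw [← h0, inv_zero, zero_mul]
      exact mul_nonneg hα.le (ha0 i)
    · rw [inv_mul_le_iff₀ h0, ← mul_assoc, ← hps]
      exact max_le (h i).2 (mul_nonneg hp0 (ha0 i))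
  · rw [mem_msum hM hA hB]
    refine ⟨_, hβM, a, ha, b, hb, fun i => ?_⟩
    simp only [Pi.smul_apply, smul_eq_mul, negPart_apply', Matrix.cons_val_zero, Pi.neg_apply,
      Matrix.cons_val_one, Matrix.cons_val_fin_one, zero_mul]
    have h1 := le_max_right (-x i) 0
    refine ⟨?_, ?_⟩
    · rw [mul_neg, neg_le_neg_iff]
      rcases ht0.eq_or_lt with h0 | h0
      · rw [← h0, inv_zero, zero_mul]
        exact mul_nonneg hβ.le (hb0 i)
      · rw [inv_mul_le_iff₀ h0, ← mul_assoc]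
        refine max_le ?_ (mul_nonneg (mul_nonneg ht0 hβ.le) (hb0 i))
        have := mul_le_mul_of_nonneg_right hpt (hb0 i)
        linarith [(h i).1]
    · have := mul_nonneg (inv_nonneg.2 ht0) h1
      linarith
  · intro i
    simp only [Pi.zero_apply, Pi.smul_apply, smul_eq_mul, posPart_apply']
    exact mul_nonneg (inv_nonneg.2 hs0) (le_max_right _ _)
  · intro i
    simp only [Pi.zero_apply, Pi.smul_apply, smul_eq_mul, Pi.neg_apply, negPart_apply']
    have := mul_nonneg (inv_nonneg.2 ht0) (le_max_right (-x i) 0)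
    linarith
  · ext i
    simp only [Pi.add_apply, Pi.smul_apply, smul_eq_mul, Pi.neg_apply, posPart_apply',
      negPart_apply']
    have e1 : s * (s⁻¹ * max (x i) 0) = max (x i) 0 := by
      rcases hs0.eq_or_lt with h0 | h0
      · rw [← h0, zero_mul]
        symm
        apply max_eq_right
        have := (h i).2
        rw [hps, ← h0] at this
        linarith
      · rw [mul_inv_cancel_left₀ h0.ne']
    have e2 : t * (t⁻¹ * -max (-x i) 0) = -max (-x i) 0 := by
      rcases ht0.eq_or_lt with h0 | h0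
      · rw [← h0, zero_mul]
        symm
        rw [neg_eq_zero]
        apply max_eq_right
        have h1 := (h i).1
        rw [← h0] at hpt
        have h2 : p 1 = 0 := by linarith
        rw [h2] at h1
        linarith
      · rw [mul_inv_cancel_left₀ h0.ne']
    rw [e1, e2]
    rcases le_total 0 (x i) with h0 | h0
    · rw [max_eq_left h0, max_eq_right (by linarith)]; ring
    · rw [max_eq_right h0, max_eq_left (by linarith)]; ring

/-- The sums over other planar bodies. -/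
theorem msum_bulging {M : Set (Fin 2 → ℝ)} {A B : Set (Fin n → ℝ)} (hM : Corner M)
    (hA : Corner A) (hB : Corner B) (hT : ¬ ∃ α β : ℝ, 0 < α ∧ 0 < β ∧
      M = {p | 0 ≤ p 0 ∧ 0 ≤ p 1 ∧ p 0 / α + p 1 / β ≤ 1}) : Bulging (MSum M A B) := by
  obtain ⟨u, hu, hu'⟩ := hM.comp.exists_isMaxOn ⟨0, hM.zero⟩
    (continuous_apply (0 : Fin 2)).continuousOn
  obtain ⟨v, hv, hv'⟩ := hM.comp.exists_isMaxOn ⟨0, hM.zero⟩
    (continuous_apply (1 : Fin 2)).continuousOn
  obtain ⟨m, hm, hm'⟩ := hM.const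
  set α : ℝ := u 0 with hα
  set β : ℝ := v 1 with hβ
  have hα0 : 0 < α := hm.trans_le (hu' hm')
  have hβ0 : 0 < β := hm.trans_le (hv' hm')
  have hαM : ![α, 0] ∈ M := by
    refine hM.lower u hu _ fun i => ?_
    fin_cases i
    · exact ⟨hα0.le, le_refl _⟩
    · exact ⟨le_refl _, hM.nonneg u hu 1⟩
  have hβM : ![0, β] ∈ M := by
    refine hM.lower v hv _ fun i => ?_
    fin_cases i
    · exact ⟨le_refl _, hM.nonneg v hv 0⟩
    · exact ⟨hβ0.le, le_refl _⟩
  -- a point beyond the diagonal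
  obtain ⟨q, hq, hq1⟩ : ∃ q ∈ M, 1 < q 0 / α + q 1 / β := by
    by_contra hcon
    push Not at hcon
    refine hT ⟨α, β, hα0, hβ0, ?_⟩
    ext p
    constructor
    · intro hp
      exact ⟨hM.nonneg p hp 0, hM.nonneg p hp 1, hcon p hp⟩
    · rintro ⟨h0, h1, h2⟩
      have h3 := hM.conv hαM hβM (a := p 0 / α) (b := 1 - p 0 / α) (by positivity)
        (by linarith [div_nonneg h1 hβ0.le]) (by ring)
      refine hM.lower _ h3 p fun i => ?_
      fin_cases i
      · refine ⟨h0, le_of_eq ?_⟩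
        simp [hα0.ne']
      · refine ⟨h1, ?_⟩
        have : p 1 / β ≤ 1 - p 0 / α := by linarith
        rw [div_le_iff₀ hβ0] at this
        simpa using this
  have hq0α : q 0 / α ≤ 1 := by rw [div_le_one hα0]; exact hu' hq
  have hq1β : q 1 / β ≤ 1 := by rw [div_le_one hβ0]; exact hv' hq
  have hq0 : 0 ≤ q 0 / α := div_nonneg (hM.nonneg q hq 0) hα0.le
  have hq1' : 0 ≤ q 1 / β := div_nonneg (hM.nonneg q hq 1) hβ0.le
  obtain ⟨r, hr, hr0, hr1⟩ : ∃ r ∈ M, α / 2 < r 0 ∧ β / 2 < r 1 := by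
    set w := (q 0 / α) with hw
    set w' := (q 1 / β) with hw'
    have h3 := hM.conv (x := (1 / 2 + (w' - w) / 2) • ![α, 0] + (1 / 2 - (w' - w) / 2) • ![0, β])
      (hM.conv hαM hβM (by linarith) (by linarith) (by ring)) hq
      (a := 1 / 2) (b := 1 / 2) (by norm_num) (by norm_num) (by norm_num)
    refine ⟨_, h3, ?_, ?_⟩
    · have e : q 0 = w * α := by rw [hw]; field_simp
      simp only [Pi.add_apply, Pi.smul_apply, smul_eq_mul, Matrix.cons_val_zero, e]
      nlinarith
    · have e : q 1 = w' * β := by rw [hw']; field_simp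
      simp only [Pi.add_apply, Pi.smul_apply, smul_eq_mul, Matrix.cons_val_one,
        Matrix.cons_val_fin_one, e]
      nlinarith
  intro y hy z hz hy0 hz0
  obtain ⟨p, hp, a, ha, b, hb, h⟩ := (mem_msum hM hA hB y).1 hy
  obtain ⟨p', hp', a', ha', b', hb', h'⟩ := (mem_msum hM hA hB z).1 hz
  obtain ⟨c, hc, hc'⟩ := a_aux hA ha (by linarith : 0 ≤ α / 2) hr0
  obtain ⟨e, he, he'⟩ := a_aux hB hb' (by linarith : 0 ≤ β / 2) hr1
  refine msum_interior hM hA hB hr hc he fun i => ?_
  simp only [Pi.smul_apply, Pi.add_apply, smul_eq_mul]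
  have k1 : y i ≤ α * a i := (h i).2.trans
    (mul_le_mul_of_nonneg_right (hu' hp) (hA.nonneg a ha i))
  have k2 : -(β * b' i) ≤ z i := by
    have : p' 1 * b' i ≤ β * b' i := mul_le_mul_of_nonneg_right (hv' hp') (hB.nonneg b' hb' i)
    linarith [(h' i).1]
  have k3 := hy0 i
  have k4 := hz0 i
  simp only [Pi.zero_apply] at k3 k4
  have k5 := hc' i
  have k6 := he' i
  constructor <;> nlinarith

end Pool.Agent.Q39.HD
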