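import Mathlib
import Pool.Agent.H985.Sep
import Pool.Agent.Q39.HD.Dual

set_option autoImplicit false

/-!
# Separation of faces for bodies which are locally anti-blocking in a linear frame
-/

namespace Pool.Agent.Q39.HD

open Set Pool.Agent.H985.Sep
open scoped InnerProductSpace

/-- The Euclidean space. -/
abbrev Eu (d : ℕ) : Type := EuclideanSpace ℝ (Fin d)

/-- `N` hyperplanes separate all faces of `K` strictly from `o`. -/
def SepBy {d : ℕ} (K : Set (Eu d)) (o : Eu d) (N : ℕ) : Prop :=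
  ∃ (w : Fin N → Eu d) (b : Fin N → ℝ), ∀ u x₀ : Eu d, u ≠ 0 → x₀ ∈ K →
    (∀ y ∈ K, ⟪u, y⟫_ℝ ≤ ⟪u, x₀⟫_ℝ) →
      ∃ i, ⟪w i, o⟫_ℝ < b i ∧ ∀ x ∈ K, ⟪u, x⟫_ℝ = ⟪u, x₀⟫_ℝ → b i < ⟪w i, x⟫_ℝ

theorem sepBy_of_cover {d : ℕ} {K : Set (Eu d)} {o : Eu d} {N : ℕ} (ho : o ∈ interior K)
    (h : Covered N (polar K o)) : SepBy K o N := by
  classical
  obtain ⟨T, hT, hc⟩ := h
  obtain ⟨H, hH, -, hsep⟩ := separate ho T hc
  obtain ⟨g, hg⟩ : ∃ g : Fin N → Eu d × ℝ, g = fun i =>
      if h : i.val < H.card then (H.equivFin.symm ⟨i.val, h⟩ : Eu d × ℝ) else (0, 0) := ⟨_, rfl⟩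
  refine ⟨fun i => (g i).1, fun i => (g i).2, fun u x₀ hu hx₀ hmax => ?_⟩
  obtain ⟨h, hhH, h1, h2⟩ := hsep u x₀ hu hx₀ hmax
  obtain ⟨k, hk⟩ : ∃ k : Fin H.card, k = H.equivFin ⟨h, hhH⟩ := ⟨_, rfl⟩
  have hkN : k.val < N := lt_of_lt_of_le k.isLt (hH.trans hT)
  have hgk : g ⟨k.val, hkN⟩ = h := by
    rw [hg]
    simp only [k.isLt, dif_pos, Fin.eta]
    rw [hk, Equiv.symm_apply_apply]
  refine ⟨⟨k.val, hkN⟩, ?_, ?_⟩
  · show ⟪(g ⟨k.val, hkN⟩).1, o⟫_ℝ < (g ⟨k.val, hkN⟩).2
    rw [hgk]; exact h1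
  · show ∀ x ∈ K, ⟪u, x⟫_ℝ = ⟪u, x₀⟫_ℝ → (g ⟨k.val, hkN⟩).2 < ⟪(g ⟨k.val, hkN⟩).1, x⟫_ℝ
    rw [hgk]; exact h2

theorem SepBy.mono {d : ℕ} {K : Set (Eu d)} {o : Eu d} {N M : ℕ} (h : SepBy K o N) (hN : 0 < N)
    (hNM : N ≤ M) : SepBy K o M := by
  obtain ⟨w, b, hs⟩ := h
  have hcast : ∀ i : Fin N, ∃ j : Fin M, (if h : j.val < N then (⟨j.val, h⟩ : Fin N) else ⟨0, hN⟩) = i :=
    fun i => ⟨⟨i.val, i.isLt.trans_le hNM⟩, by simp⟩
  refine ⟨fun j => w (if h : j.val < N then ⟨j.val, h⟩ else ⟨0, hN⟩),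
    fun j => b (if h : j.val < N then ⟨j.val, h⟩ else ⟨0, hN⟩), fun u x₀ hu hx₀ hmax => ?_⟩
  obtain ⟨i, h1, h2⟩ := hs u x₀ hu hx₀ hmax
  obtain ⟨j, hj⟩ := hcast i
  refine ⟨j, ?_, ?_⟩
  · show ⟪w (if h : j.val < N then ⟨j.val, h⟩ else ⟨0, hN⟩), o⟫_ℝ <
      b (if h : j.val < N then ⟨j.val, h⟩ else ⟨0, hN⟩)
    rw [hj]; exact h1
  · show ∀ x ∈ K, ⟪u, x⟫_ℝ = ⟪u, x₀⟫_ℝ → b (if h : j.val < N then ⟨j.val, h⟩ else ⟨0, hN⟩) <
      ⟪w (if h : j.val < N then ⟨j.val, h⟩ else ⟨0, hN⟩), x⟫_ℝ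
    rw [hj]; exact h2

variable {d : ℕ}

/-- The point with given coordinates in the frame with origin `o` and basis `v`. -/
noncomputable def place (v : Module.Basis (Fin d) ℝ (Eu d)) (o : Eu d) : (Fin d → ℝ) ≃ₜ Eu d :=
  v.equivFun.symm.toContinuousLinearEquiv.toHomeomorph.trans (Homeomorph.addLeft o)

theorem place_apply (v : Module.Basis (Fin d) ℝ (Eu d)) (o : Eu d) (x : Fin d → ℝ) :
    place v o x = o + ∑ i, x i • v i := by
  show o + v.equivFun.symm x = _
  rw [Module.Basis.equivFun_symm_apply]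

/-- The set of the coordinates of the points of `K`. -/
def frame (v : Module.Basis (Fin d) ℝ (Eu d)) (o : Eu d) (K : Set (Eu d)) : Set (Fin d → ℝ) :=
  {x | o + ∑ i, x i • v i ∈ K}

theorem frame_eq (v : Module.Basis (Fin d) ℝ (Eu d)) (o : Eu d) (K : Set (Eu d)) :
    frame v o K = place v o ⁻¹' K := by
  ext x
  rw [mem_preimage, place_apply]
  rfl

theorem frame_compact (v : Module.Basis (Fin d) ℝ (Eu d)) (o : Eu d) {K : Set (Eu d)}
    (hK : IsCompact K) : IsCompact (frame v o K) := by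
  rw [frame_eq]
  exact (place v o).isCompact_preimage.2 hK

theorem frame_convex (v : Module.Basis (Fin d) ℝ (Eu d)) (o : Eu d) {K : Set (Eu d)}
    (hK : Convex ℝ K) : Convex ℝ (frame v o K) := by
  intro x hx y hy a b ha hb hab
  have h := hK hx hy ha hb hab
  show o + ∑ i, (a • x + b • y) i • v i ∈ K
  have e : o + ∑ i, (a • x + b • y) i • v i =
      a • (o + ∑ i, x i • v i) + b • (o + ∑ i, y i • v i) := by
    rw [smul_add, smul_add, Finset.smul_sum, Finset.smul_sum]
    have e1 : ∀ i, (a • x + b • y) i • v i = a • x i • v i + b • y i • v i := fun i => by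
      simp only [Pi.add_apply, Pi.smul_apply, smul_eq_mul, add_smul, mul_smul]
    simp only [e1, Finset.sum_add_distrib]
    have e2 : o = a • o + b • o := by rw [← add_smul, hab, one_smul]
    conv_lhs => rw [e2]
    abel
  rw [e]
  exact h

theorem frame_zero (v : Module.Basis (Fin d) ℝ (Eu d)) {o : Eu d} {K : Set (Eu d)}
    (ho : o ∈ interior K) : (0 : Fin d → ℝ) ∈ interior (frame v o K) := by
  rw [frame_eq, ← (place v o).preimage_interior, mem_preimage, place_apply]
  simpa using ho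

theorem frame_zero_iff (v : Module.Basis (Fin d) ℝ (Eu d)) {o : Eu d} {K : Set (Eu d)} :
    (0 : Fin d → ℝ) ∈ interior (frame v o K) ↔ o ∈ interior K := by
  rw [frame_eq, ← (place v o).preimage_interior, mem_preimage, place_apply]
  simp

/-- The values on the basis. -/
theorem exists_dual (v : Module.Basis (Fin d) ℝ (Eu d)) :
    ∃ φ : Eu d ≃L[ℝ] (Fin d → ℝ), ∀ a i, φ a i = ⟪a, v i⟫_ℝ := by
  let L : Eu d →ₗ[ℝ] (Fin d → ℝ) :=
    { toFun := fun a i => ⟪a, v i⟫_ℝ
      map_add' := by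
        intro a b
        funext i
        simp [inner_add_left]
      map_smul' := by
        intro c a
        funext i
        simp [real_inner_smul_left] }
  have hL : Function.Injective L := by
    intro a b hab
    refine InnerProductSpace.ext_inner_right_basis v (fun i => ?_)
    exact congrFun hab i
  have hfr : Module.finrank ℝ (Eu d) = Module.finrank ℝ (Fin d → ℝ) := by simp
  refine ⟨(LinearEquiv.ofInjectiveOfFinrankEq L hL hfr).toContinuousLinearEquiv, fun a i => rfl⟩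

theorem inner_frame (v : Module.Basis (Fin d) ℝ (Eu d)) (a : Eu d) (x : Fin d → ℝ) :
    ⟪a, ∑ i, x i • v i⟫_ℝ = ∑ i, ⟪a, v i⟫_ℝ * x i := by
  rw [inner_sum]
  refine Finset.sum_congr rfl fun i _ => ?_
  rw [real_inner_smul_right, mul_comm]

theorem mem_polar_iff (v : Module.Basis (Fin d) ℝ (Eu d)) (o : Eu d) (K : Set (Eu d))
    (φ : Eu d ≃L[ℝ] (Fin d → ℝ)) (hφ : ∀ a i, φ a i = ⟪a, v i⟫_ℝ) (a : Eu d) :
    a ∈ polar K o ↔ φ a ∈ pol (frame v o K) := by
  constructor
  · intro h x hx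
    have := h _ hx
    rw [add_sub_cancel_left, inner_frame] at this
    simpa only [hφ] using this
  · intro h y hy
    have hx : (place v o).symm y ∈ frame v o K := by
      rw [frame_eq, mem_preimage, Homeomorph.apply_symm_apply]
      exact hy
    have h1 := h _ hx
    have e : y - o = ∑ i, (place v o).symm y i • v i := by
      have := place_apply v o ((place v o).symm y)
      rw [Homeomorph.apply_symm_apply] at this
      exact sub_eq_iff_eq_add'.2 this
    rw [e, inner_frame]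
    simpa only [hφ] using h1

theorem polar_image (v : Module.Basis (Fin d) ℝ (Eu d)) (o : Eu d) (K : Set (Eu d))
    (φ : Eu d ≃L[ℝ] (Fin d → ℝ)) (hφ : ∀ a i, φ a i = ⟪a, v i⟫_ℝ) :
    φ '' polar K o = pol (frame v o K) := by
  ext a
  constructor
  · rintro ⟨b, hb, rfl⟩
    exact (mem_polar_iff v o K φ hφ b).1 hb
  · intro ha
    refine ⟨φ.symm a, ?_, φ.apply_symm_apply a⟩
    rw [mem_polar_iff v o K φ hφ, φ.apply_symm_apply]
    exact ha

theorem covered_polar (v : Module.Basis (Fin d) ℝ (Eu d)) (o : Eu d) (K : Set (Eu d)) {N : ℕ}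
    (h : Covered N (pol (frame v o K))) : Covered N (polar K o) := by
  classical
  obtain ⟨φ, hφ⟩ := exists_dual v
  obtain ⟨T, hT, hc⟩ := h
  refine ⟨T.image φ.symm, Finset.card_image_le.trans hT, fun a ha => ?_⟩
  have h1 := hc ((mem_polar_iff v o K φ hφ a).1 ha)
  simp only [Set.mem_iUnion] at h1 ⊢
  obtain ⟨t, ht, y, hy, hty⟩ := h1
  rw [← polar_image v o K φ hφ] at hy
  have hy' : y ∈ φ.toHomeomorph '' interior (polar K o) := by
    rw [φ.toHomeomorph.image_interior]
    exact hy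
  obtain ⟨z, hz, hzy⟩ := hy'
  refine ⟨φ.symm t, Finset.mem_image_of_mem _ ht, z, hz, ?_⟩
  apply φ.injective
  have hzy' : φ z = y := hzy
  rw [map_add, φ.apply_symm_apply, hzy']
  exact hty

theorem pol_props (v : Module.Basis (Fin d) ℝ (Eu d)) {o : Eu d} {K : Set (Eu d)}
    (hKc : IsCompact K) (ho : o ∈ interior K) :
    Convex ℝ (pol (frame v o K)) ∧ IsCompact (pol (frame v o K)) ∧
      (interior (pol (frame v o K))).Nonempty := by
  obtain ⟨φ, hφ⟩ := exists_dual v
  rw [← polar_image v o K φ hφ]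
  refine ⟨(convex_polar K o).linear_image φ.toLinearEquiv.toLinearMap,
    (isCompact_polar ho).image φ.continuous, ?_⟩
  obtain ⟨z, hz⟩ := interior_polar_nonempty hKc ho
  have h1 : φ.toHomeomorph '' interior (polar K o) = interior (φ '' polar K o) :=
    φ.toHomeomorph.image_interior _
  rw [← h1]
  exact ⟨_, z, hz, rfl⟩

/-- The bipolar theorem. -/
theorem bipolar {C : Set (Fin d → ℝ)} (hC : Convex ℝ C) (hc : IsClosed C) (h0 : (0 : Fin d → ℝ) ∈ C)
    {x : Fin d → ℝ} (hx : ∀ a ∈ pol C, ∑ i, a i * x i ≤ 1) : x ∈ C := by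
  by_contra hcon
  obtain ⟨f, u, h1, h2⟩ := geometric_hahn_banach_closed_point hC hc hcon
  have hu : 0 < u := by simpa using h1 0 h0
  have hf : ∀ y : Fin d → ℝ, f y = ∑ i, f (Pi.single i 1) * y i := by
    intro y
    conv_lhs => rw [pi_eq_sum_univ' y]
    rw [map_sum]
    refine Finset.sum_congr rfl fun i _ => ?_
    rw [map_smul, smul_eq_mul, mul_comm]
  have h3 : (fun i => u⁻¹ * f (Pi.single i 1)) ∈ pol C := by
    intro y hy
    have h4 := h1 y hy
    rw [hf] at h4
    simp only [mul_assoc]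
    rw [← Finset.mul_sum, inv_mul_le_iff₀ hu, mul_one]
    exact h4.le
  have h5 := hx _ h3
  simp only [mul_assoc] at h5
  rw [← Finset.mul_sum, ← hf, inv_mul_le_iff₀ hu, mul_one] at h5
  linarith

/-- If the polar body is a box then `K` is a cross-body. -/
theorem cross_of_box (hd : 0 < d) (v : Module.Basis (Fin d) ℝ (Eu d)) {o : Eu d} {K : Set (Eu d)}
    (hK : Convex ℝ K) (hKc : IsCompact K) (ho : o ∈ interior K)
    (hbox : ∃ l u, pol (frame v o K) = Set.Icc l u) :
    ∃ s t : Fin d → ℝ, (∀ i, 0 < s i) ∧ (∀ i, 0 < t i) ∧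
      K = convexHull ℝ (⋃ i, ({o + s i • v i, o - t i • v i} : Set (Eu d))) := by
  obtain ⟨l, u, hbox⟩ := hbox
  set C := frame v o K with hC
  have hCc : IsCompact C := frame_compact v o hKc
  have hCv : Convex ℝ C := frame_convex v o hK
  have hC0 : (0 : Fin d → ℝ) ∈ interior C := frame_zero v ho
  -- `0` is an interior point of the polar body
  have h0 : (0 : Fin d → ℝ) ∈ interior (pol C) :=
    pol_interior hCc fun x _ => by simp
  have hlu : ∀ i, l i < 0 ∧ 0 < u i := by
    intro i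
    rw [hbox, ← pi_univ_Icc, interior_pi_set finite_univ] at h0
    have : (0 : ℝ) ∈ interior (Set.Icc (l i) (u i)) := h0 i (mem_univ i)
    rw [interior_Icc] at this
    exact this
  refine ⟨fun i => (u i)⁻¹, fun i => -(l i)⁻¹, fun i => inv_pos.2 (hlu i).2,
    fun i => by have := inv_lt_zero.2 (hlu i).1; linarith, ?_⟩
  have hmem : ∀ (i : Fin d) (c : ℝ), l i * c ≤ 1 → u i * c ≤ 1 → o + c • v i ∈ K := by
    intro i c h1 h2
    have : Pi.single i c ∈ C := by
      refine bipolar hCv hCc.isClosed (interior_subset hC0) fun a ha => ?_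
      rw [hbox] at ha
      rw [Finset.sum_eq_single i (fun j _ hj => by rw [Pi.single_eq_of_ne hj, mul_zero])
        (fun h => absurd (Finset.mem_univ i) h), Pi.single_eq_same]
      rcases le_total 0 c with hc | hc
      · exact (mul_le_mul_of_nonneg_right (ha.2 i) hc).trans h2
      · exact (mul_le_mul_of_nonpos_right (ha.1 i) hc).trans h1
    have h3 : o + ∑ j, (Pi.single i c : Fin d → ℝ) j • v j ∈ K := this
    rwa [Finset.sum_eq_single i (fun j _ hj => by rw [Pi.single_eq_of_ne hj, zero_smul])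
        (fun h => absurd (Finset.mem_univ i) h), Pi.single_eq_same] at h3
  apply Set.Subset.antisymm
  · intro y hy
    obtain ⟨S, hS⟩ : ∃ S, S = convexHull ℝ
      (⋃ i, ({o + (u i)⁻¹ • v i, o - (-(l i)⁻¹) • v i} : Set (Eu d))) := ⟨_, rfl⟩
    rw [← hS]
    have hSc : Convex ℝ S := by rw [hS]; exact convex_convexHull ℝ _
    have hS1 : ∀ i, o + (u i)⁻¹ • v i ∈ S ∧ o - (-(l i)⁻¹) • v i ∈ S := by
      intro i
      rw [hS]
      exact ⟨subset_convexHull ℝ _ (mem_iUnion.2 ⟨i, Or.inl rfl⟩),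
        subset_convexHull ℝ _ (mem_iUnion.2 ⟨i, Or.inr rfl⟩)⟩
    have hoS : o ∈ S := by
      obtain ⟨h1, h2⟩ := hS1 ⟨0, hd⟩
      obtain ⟨h3, h4⟩ := hlu ⟨0, hd⟩
      set a := (u ⟨0, hd⟩)⁻¹ with ha
      set b := -(l ⟨0, hd⟩)⁻¹ with hb
      have ha0 : 0 < a := inv_pos.2 h4
      have hb0 : 0 < b := by have := inv_lt_zero.2 h3; linarith
      have e2 : b / (a + b) + a / (a + b) = 1 := by
        rw [← add_div, add_comm b a, div_self (by positivity)]
      have h5 := hSc h1 h2 (a := b / (a + b)) (b := a / (a + b)) (by positivity) (by positivity) e2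
      have h6 : (b / (a + b)) • (o + a • v ⟨0, hd⟩) + (a / (a + b)) • (o - b • v ⟨0, hd⟩) = o := by
        rw [smul_add, smul_sub, smul_smul, smul_smul]
        have e1 : b / (a + b) * a = a / (a + b) * b := by ring
        rw [e1, add_add_sub_cancel, ← add_smul]
        rw [e2, one_smul]
      rwa [h6] at h5
    obtain ⟨x, hxC, hxy⟩ : ∃ x ∈ C, o + ∑ i, x i • v i = y := by
      refine ⟨(place v o).symm y, ?_, ?_⟩
      · rw [hC, frame_eq, mem_preimage, Homeomorph.apply_symm_apply]; exact hy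
      · rw [← place_apply, Homeomorph.apply_symm_apply]
    set lam : Fin d → ℝ := fun i => (if 0 ≤ x i then u i else l i) * x i with hlam
    set p : Fin d → Eu d := fun i => if 0 ≤ x i then o + (u i)⁻¹ • v i else o - (-(l i)⁻¹) • v i
      with hp
    have hlam0 : ∀ i, 0 ≤ lam i := by
      intro i
      simp only [hlam]
      split_ifs with h
      · exact mul_nonneg (hlu i).2.le h
      · exact mul_nonneg_of_nonpos_of_nonpos (hlu i).1.le (not_le.1 h).le
    have hpS : ∀ i, p i ∈ S := by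
      intro i
      simp only [hp]
      split_ifs
      · exact (hS1 i).1
      · exact (hS1 i).2
    have hlp : ∀ i, lam i • (p i - o) = x i • v i := by
      intro i
      simp only [hlam, hp]
      split_ifs with h
      · rw [add_sub_cancel_left, smul_smul]
        congr 1
        have := (hlu i).2.ne'
        field_simp
      · rw [sub_sub_cancel_left, neg_smul, neg_neg, smul_smul]
        congr 1
        have := (hlu i).1.ne
        field_simp
    have hsum : ∑ i, lam i ≤ 1 := by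
      have ha : (fun i => if 0 ≤ x i then u i else l i) ∈ pol C := by
        rw [hbox]
        refine ⟨fun i => ?_, fun i => ?_⟩
        · show l i ≤ if 0 ≤ x i then u i else l i
          split_ifs
          · exact ((hlu i).1.trans (hlu i).2).le
          · exact le_refl _
        · show (if 0 ≤ x i then u i else l i) ≤ u i
          split_ifs
          · exact le_refl _
          · exact ((hlu i).1.trans (hlu i).2).le
      exact ha x hxC
    set Λ := ∑ i, lam i with hΛ
    have hΛ0 : 0 ≤ Λ := Finset.sum_nonneg fun i _ => hlam0 i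
    have hy' : y = o + ∑ i, lam i • (p i - o) := by
      rw [← hxy]
      simp only [hlp]
    rcases hΛ0.eq_or_lt with h | h
    · have h1 : ∀ i, lam i = 0 := fun i =>
        (Finset.sum_eq_zero_iff_of_nonneg fun i _ => hlam0 i).1 h.symm i (Finset.mem_univ i)
      rw [hy']
      simp only [h1, zero_smul, Finset.sum_const_zero, add_zero]
      exact hoS
    · have h1 : ∑ i, (lam i / Λ) • p i ∈ S := by
        refine hSc.sum_mem (t := Finset.univ) (fun i _ => div_nonneg (hlam0 i) hΛ0) ?_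
          (fun i _ => hpS i)
        rw [← Finset.sum_div, ← hΛ, div_self h.ne']
      have h2 := hSc hoS h1 (sub_nonneg.2 hsum) hΛ0 (by ring : (1 - Λ) + Λ = 1)
      have h3 : (1 - Λ) • o + Λ • ∑ i, (lam i / Λ) • p i = y := by
        rw [hy', Finset.smul_sum]
        have e1 : ∀ i, Λ • (lam i / Λ) • p i = lam i • p i := fun i => by
          rw [smul_smul, mul_div_cancel₀ _ h.ne']
        simp only [e1, smul_sub, Finset.sum_sub_distrib]
        rw [← Finset.sum_smul, ← hΛ, sub_smul, one_smul]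
        abel
      rwa [h3] at h2
  · refine convexHull_min ?_ hK
    intro z hz
    obtain ⟨i, hi⟩ := mem_iUnion.1 hz
    obtain ⟨h1, h2⟩ := hlu i
    rcases hi with rfl | hi
    · refine hmem i _ ?_ ?_
      · have : l i * (u i)⁻¹ ≤ 0 := mul_nonpos_of_nonpos_of_nonneg h1.le (inv_pos.2 h2).le
        linarith
      · rw [mul_inv_cancel₀ h2.ne']
    · rw [mem_singleton_iff] at hi
      subst hi
      rw [neg_smul, sub_neg_eq_add]
      refine hmem i _ ?_ ?_
      · rw [mul_inv_cancel₀ h1.ne]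
      · have : u i * (l i)⁻¹ ≤ 0 := mul_nonpos_of_nonneg_of_nonpos h2.le (inv_lt_zero.2 h1).le
        linarith

/-- Part A: bodies in which every point is on a segment between the two orthants. -/
theorem joined_main (hd : 0 < d) (v : Module.Basis (Fin d) ℝ (Eu d)) {o : Eu d} {K : Set (Eu d)}
    (hK : Convex ℝ K) (hKc : IsCompact K) (ho : o ∈ interior K) (hL : LAB (frame v o K))
    (hJ : Joined (frame v o K)) :
    SepBy K o (2 ^ d) ∧ (¬ SepBy K o (2 ^ d - 1) →
      ∃ s t : Fin d → ℝ, (∀ i, 0 < s i) ∧ (∀ i, 0 < t i) ∧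
        K = convexHull ℝ (⋃ i, ({o + s i • v i, o - t i • v i} : Set (Eu d)))) := by
  obtain ⟨h1, h2, h3⟩ := pol_props v hKc ho
  have h4 := difference h1 h2 (pol_lab hL) h3 (pol_diff hL hJ)
  refine ⟨sepBy_of_cover ho (covered_polar v o K h4.1), fun hn => ?_⟩
  by_contra hcon
  refine hn (sepBy_of_cover ho (covered_polar v o K (h4.2 fun hbox => hcon ?_)))
  exact cross_of_box hd v hK hKc ho hbox

/-- Part B: bodies without segments in the boundary between the two orthants. -/
theorem bulging_main (v : Module.Basis (Fin d) ℝ (Eu d)) {o : Eu d} {K : Set (Eu d)}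
    (hKc : IsCompact K) (ho : o ∈ interior K) (hL : LAB (frame v o K))
    (hB : Bulging (frame v o K)) : SepBy K o (2 * d.choose (d / 2)) := by
  obtain ⟨h1, h2, h3⟩ := pol_props v hKc ho
  exact sepBy_of_cover ho (covered_polar v o K
    (separated h1 h2 (pol_lab hL) (pol_sep (frame_compact v o hKc) hL hB)))

end Pool.Agent.Q39.HD
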