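import Mathlib
import Pool.Agent.Q39.HD.Frame

set_option autoImplicit false

/-!
# Sums of anti-blocking bodies in a frame
-/

namespace Pool.Agent.Q39.HD

open Set
open scoped Pointwise

variable {n : ℕ}

theorem square_corner : Corner (Set.Icc (0 : Fin 2 → ℝ) 1) := by
  refine ⟨convex_Icc _ _, isCompact_Icc, ?_, fun x hx i => hx.1 i, fun x hx y hy =>
    ⟨fun i => (hy i).1, fun i => (hy i).2.trans (hx.2 i)⟩⟩
  refine ⟨fun _ => 1 / 2, ?_⟩
  rw [mem_interior]
  refine ⟨Set.pi Set.univ fun _ => Set.Ioo 0 1, ?_, isOpen_set_pi Set.finite_univ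
    fun i _ => isOpen_Ioo, fun i _ => ?_⟩
  · intro z hz
    exact ⟨fun i => (hz i (Set.mem_univ i)).1.le, fun i => (hz i (Set.mem_univ i)).2.le⟩
  · constructor <;> norm_num

/-- The triangle. -/
def tri : Set (Fin 2 → ℝ) := {p | 0 ≤ p 0 ∧ 0 ≤ p 1 ∧ p 0 / 1 + p 1 / 1 ≤ 1}

theorem tri_corner : Corner tri := by
  refine ⟨?_, ?_, ?_, fun x hx i => ?_, fun x hx y hy => ⟨(hy 0).1, (hy 1).1, ?_⟩⟩
  · rintro x ⟨h1, h2, h3⟩ y ⟨h4, h5, h6⟩ a b ha hb hab
    rw [div_one, div_one] at h3 h6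
    show 0 ≤ a * x 0 + b * y 0 ∧ 0 ≤ a * x 1 + b * y 1 ∧
      (a * x 0 + b * y 0) / 1 + (a * x 1 + b * y 1) / 1 ≤ 1
    rw [div_one, div_one]
    have e1 := mul_le_mul_of_nonneg_left h3 ha
    have e2 := mul_le_mul_of_nonneg_left h6 hb
    have := mul_nonneg ha h1
    have := mul_nonneg ha h2
    have := mul_nonneg hb h4
    have := mul_nonneg hb h5
    refine ⟨?_, ?_, ?_⟩ <;> nlinarith
  · have hsub : tri ⊆ Set.Icc (0 : Fin 2 → ℝ) 1 := by
      rintro x ⟨h1, h2, h3⟩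
      rw [div_one, div_one] at h3
      refine ⟨fun i => ?_, fun i => ?_⟩
      · fin_cases i
        · exact h1
        · exact h2
      · fin_cases i
        · simp only [Pi.one_apply]; show x 0 ≤ 1; linarith
        · simp only [Pi.one_apply]; show x 1 ≤ 1; linarith
    refine isCompact_Icc.of_isClosed_subset ?_ hsub
    have : tri = {p | 0 ≤ p 0} ∩ ({p | 0 ≤ p 1} ∩ {p | p 0 / 1 + p 1 / 1 ≤ 1}) := by
      ext p; rfl
    rw [this]
    refine (isClosed_le continuous_const (continuous_apply 0)).inter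
      ((isClosed_le continuous_const (continuous_apply 1)).inter
      (isClosed_le (((continuous_apply 0).div_const 1).add ((continuous_apply 1).div_const 1))
        continuous_const))
  · refine ⟨fun _ => 1 / 4, ?_⟩
    rw [mem_interior]
    refine ⟨Set.pi Set.univ fun _ => Set.Ioo 0 (1 / 2), ?_, isOpen_set_pi Set.finite_univ
      fun i _ => isOpen_Ioo, fun i _ => ?_⟩
    · intro z hz
      have h0 := hz 0 (Set.mem_univ _)
      have h1 := hz 1 (Set.mem_univ _)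
      refine ⟨h0.1.le, h1.1.le, ?_⟩
      rw [div_one, div_one]
      linarith [h0.2, h1.2]
    · constructor <;> norm_num
  · fin_cases i
    · exact hx.1
    · exact hx.2.1
  · have := (hy 0).2
    have := (hy 1).2
    have h3 := hx.2.2
    rw [div_one, div_one] at h3 ⊢
    linarith

theorem square_not_tri : ¬ ∃ α β : ℝ, 0 < α ∧ 0 < β ∧
    Set.Icc (0 : Fin 2 → ℝ) 1 = {p | 0 ≤ p 0 ∧ 0 ≤ p 1 ∧ p 0 / α + p 1 / β ≤ 1} := by
  rintro ⟨α, β, hα, hβ, h⟩
  have h1 : (1 : Fin 2 → ℝ) ∈ Set.Icc (0 : Fin 2 → ℝ) 1 := ⟨zero_le_one, le_refl _⟩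
  rw [h] at h1
  obtain ⟨-, -, h2⟩ := h1
  have h3 : (![α, 0] : Fin 2 → ℝ) ∈ Set.Icc (0 : Fin 2 → ℝ) 1 := by
    rw [h]; refine ⟨hα.le, le_refl _, ?_⟩; simp [hα.ne']
  have h4 : (![0, β] : Fin 2 → ℝ) ∈ Set.Icc (0 : Fin 2 → ℝ) 1 := by
    rw [h]; refine ⟨le_refl _, hβ.le, ?_⟩; simp [hβ.ne']
  have h5 : α ≤ 1 := by simpa using h3.2 0
  have h6 : β ≤ 1 := by simpa using h4.2 1
  have h7 : 1 ≤ 1 / α := by rw [le_div_iff₀ hα]; linarith
  have h8 : 1 ≤ 1 / β := by rw [le_div_iff₀ hβ]; linarith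
  simp only [Pi.one_apply] at h2
  linarith

theorem msum_square {A B : Set (Fin n → ℝ)} (hA : Corner A) (hB : Corner B) :
    MSum (Set.Icc 0 1) A B = A - B := by
  have hs : ∀ {C : Set (Fin n → ℝ)}, Corner C → ∀ {s : ℝ}, 0 ≤ s → s ≤ 1 → ∀ {c},
      c ∈ C → s • c ∈ C := by
    intro C hC s hs0 hs1 c hc
    refine hC.lower c hc _ fun i => ⟨mul_nonneg hs0 (hC.nonneg c hc i), ?_⟩
    simp only [Pi.smul_apply, smul_eq_mul]
    have := hC.nonneg c hc i
    nlinarith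
  ext x
  constructor
  · rintro ⟨p, hp, a, ha, b, hb, rfl⟩
    exact Set.sub_mem_sub (hs hA (hp.1 0) (hp.2 0) ha) (hs hB (hp.1 1) (hp.2 1) hb)
  · rintro ⟨a, ha, b, hb, rfl⟩
    exact ⟨1, ⟨zero_le_one, le_refl _⟩, a, ha, b, hb, by simp⟩

theorem msum_tri {A B : Set (Fin n → ℝ)} (hA : Corner A) (hB : Corner B) :
    MSum tri A B = convexHull ℝ (A ∪ -B) := by
  have hA0 := hA.zero
  have hB0 := hB.zero
  rw [hA.conv.convexHull_union hB.conv.neg ⟨0, hA0⟩ ⟨0, by simpa using hB0⟩]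
  ext x
  rw [mem_convexJoin]
  constructor
  · rintro ⟨p, ⟨h1, h2, h3⟩, a, ha, b, hb, rfl⟩
    rw [div_one, div_one] at h3
    rcases h2.eq_or_lt with h | h
    · refine ⟨p 0 • a, ?_, 0, by simpa using hB0, ?_⟩
      · have := hA.conv ha hA0 h1 (by linarith : 0 ≤ 1 - p 0) (by ring)
        simpa using this
      · rw [← h, zero_smul, sub_zero]
        exact left_mem_segment ℝ _ _
    · rcases (show p 1 ≤ 1 by linarith).eq_or_lt with h' | h'
      · have h0 : p 0 = 0 := by linarith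
        refine ⟨0, hA0, -b, by simpa using hb, ?_⟩
        rw [h0, h', zero_smul, one_smul, zero_sub]
        exact right_mem_segment ℝ _ _
      · have h4 : 0 < 1 - p 1 := by linarith
        refine ⟨(p 0 / (1 - p 1)) • a, ?_, -b, by simpa using hb, 1 - p 1, p 1, h4.le, h.le,
          by ring, ?_⟩
        · have h5 : p 0 / (1 - p 1) ≤ 1 := by rw [div_le_one h4]; linarith
          have := hA.conv ha hA0 (div_nonneg h1 h4.le) (by linarith : 0 ≤ 1 - p 0 / (1 - p 1))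
            (by ring)
          simpa using this
        · rw [smul_smul, mul_div_cancel₀ _ h4.ne', smul_neg, sub_eq_add_neg]
  · rintro ⟨a, ha, b, hb, s, t, hs, ht, hst, rfl⟩
    refine ⟨![s, t], ⟨hs, ht, by simp [hst]⟩, a, ha, -b, hb, ?_⟩
    simp

theorem choose_succ_le' (m k : ℕ) : (m + 1).choose k ≤ 2 ^ m := by
  cases k with
  | zero => simpa using Nat.one_le_two_pow
  | succ j =>
    rw [Nat.choose_succ_succ]
    rcases Nat.lt_or_ge j m with h | h
    · rw [← Nat.sum_range_choose m]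
      have hsub : ({j, j + 1} : Finset ℕ) ⊆ Finset.range (m + 1) := by
        intro i hi
        simp only [Finset.mem_insert, Finset.mem_singleton] at hi
        exact Finset.mem_range.2 (by omega)
      have := Finset.sum_le_sum_of_subset (f := fun i => m.choose i) hsub
      rwa [Finset.sum_pair (by omega)] at this
    · rw [Nat.choose_eq_zero_of_lt (by omega : m < j + 1), add_zero]
      exact Nat.choose_le_two_pow _ _

theorem two_choose_lt {d : ℕ} (hd : 3 ≤ d) : 2 * d.choose (d / 2) < 2 ^ d := by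
  obtain ⟨m, rfl⟩ : ∃ m, d = m + 3 := ⟨d - 3, by omega⟩
  set k := (m + 3) / 2 with hk
  have hk1 : 1 ≤ k := by omega
  have hk2 : k ≤ m + 1 := by omega
  obtain ⟨j, hj⟩ : ∃ j, k = j + 1 := ⟨k - 1, by omega⟩
  have e : (m + 2 + 1).choose (j + 1) = (m + 2).choose j + (m + 2).choose (j + 1) :=
    Nat.choose_succ_succ _ _
  have hsum : (m + 2).choose j + (m + 2).choose (j + 1) < 2 ^ (m + 2) := by
    rw [← Nat.sum_range_choose (m + 2), ← Finset.sum_pair (show j ≠ j + 1 by omega)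
      (f := fun i => (m + 2).choose i)]
    refine Finset.sum_lt_sum_of_subset (i := m + 2) ?_ ?_ ?_ ?_ ?_
    · intro i hi
      simp only [Finset.mem_insert, Finset.mem_singleton] at hi
      exact Finset.mem_range.2 (by omega)
    · exact Finset.mem_range.2 (by omega)
    · simp only [Finset.mem_insert, Finset.mem_singleton]
      omega
    · simp
    · intro i _ _
      exact Nat.zero_le _
  rw [hj, show m + 3 = m + 2 + 1 from rfl, e, pow_succ (2 : ℕ) (m + 2)]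
  omega

/-- The body with the given coordinates in the frame. -/
def inFrame {d : ℕ} (v : Module.Basis (Fin d) ℝ (Eu d)) (o : Eu d) (S : Set (Fin d → ℝ)) :
    Set (Eu d) :=
  {y | ∃ x ∈ S, y = o + ∑ i, x i • v i}

theorem inFrame_eq {d : ℕ} (v : Module.Basis (Fin d) ℝ (Eu d)) (o : Eu d)
    (S : Set (Fin d → ℝ)) : inFrame v o S = place v o '' S := by
  ext y
  constructor
  · rintro ⟨x, hx, rfl⟩
    exact ⟨x, hx, place_apply v o x⟩
  · rintro ⟨x, hx, rfl⟩
    exact ⟨x, hx, place_apply v o x⟩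

theorem frame_inFrame {d : ℕ} (v : Module.Basis (Fin d) ℝ (Eu d)) (o : Eu d)
    (S : Set (Fin d → ℝ)) : frame v o (inFrame v o S) = S := by
  rw [inFrame_eq, frame_eq, preimage_image_eq _ (place v o).injective]

theorem inFrame_convex {d : ℕ} (v : Module.Basis (Fin d) ℝ (Eu d)) (o : Eu d)
    {S : Set (Fin d → ℝ)} (hS : Convex ℝ S) : Convex ℝ (inFrame v o S) := by
  rintro _ ⟨x, hx, rfl⟩ _ ⟨y, hy, rfl⟩ a b ha hb hab
  refine ⟨_, hS hx hy ha hb hab, ?_⟩
  rw [smul_add, smul_add, Finset.smul_sum, Finset.smul_sum]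
  have e1 : ∀ i, (a • x + b • y) i • v i = a • x i • v i + b • y i • v i := fun i => by
    simp only [Pi.add_apply, Pi.smul_apply, smul_eq_mul, add_smul, mul_smul]
  simp only [e1, Finset.sum_add_distrib]
  rw [add_add_add_comm, ← add_smul, hab, one_smul]

theorem inFrame_compact {d : ℕ} (v : Module.Basis (Fin d) ℝ (Eu d)) (o : Eu d)
    {S : Set (Fin d → ℝ)} (hS : IsCompact S) : IsCompact (inFrame v o S) := by
  rw [inFrame_eq]
  exact hS.image (place v o).continuous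

/-- The sums in a frame. -/
theorem sum_frame {d : ℕ} (hd : 0 < d) (v : Module.Basis (Fin d) ℝ (Eu d)) (o : Eu d)
    {M : Set (Fin 2 → ℝ)} {A B : Set (Fin d → ℝ)} (hM : Corner M) (hA : Corner A)
    (hB : Corner B) :
    Convex ℝ (inFrame v o (MSum M A B)) ∧ IsCompact (inFrame v o (MSum M A B)) ∧
    o ∈ interior (inFrame v o (MSum M A B)) ∧
    SepBy (inFrame v o (MSum M A B)) o (2 ^ d) ∧
    ((∃ α β : ℝ, 0 < α ∧ 0 < β ∧ M = {p | 0 ≤ p 0 ∧ 0 ≤ p 1 ∧ p 0 / α + p 1 / β ≤ 1}) →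
      ¬ SepBy (inFrame v o (MSum M A B)) o (2 ^ d - 1) →
      ∃ s t : Fin d → ℝ, (∀ i, 0 < s i) ∧ (∀ i, 0 < t i) ∧ inFrame v o (MSum M A B) =
        convexHull ℝ (⋃ i, ({o + s i • v i, o - t i • v i} : Set (Eu d)))) ∧
    ((¬ ∃ α β : ℝ, 0 < α ∧ 0 < β ∧ M = {p | 0 ≤ p 0 ∧ 0 ≤ p 1 ∧ p 0 / α + p 1 / β ≤ 1}) →
      SepBy (inFrame v o (MSum M A B)) o (2 * d.choose (d / 2))) := by
  have h1 := inFrame_convex v o (msum_convex hM hA hB)
  have h2 := inFrame_compact v o (msum_compact hM hA hB)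
  have h0 : (0 : Fin d → ℝ) ∈ interior (MSum M A B) := by
    obtain ⟨m, hm, hm'⟩ := hM.const
    obtain ⟨r, hr, hr'⟩ := hA.const
    obtain ⟨s, hs, hs'⟩ := hB.const
    refine msum_interior hM hA hB hm' hr' hs' fun i => ?_
    simp only [Pi.zero_apply]
    have := mul_pos hm hr
    have := mul_pos hm hs
    constructor <;> linarith
  have h3 : o ∈ interior (inFrame v o (MSum M A B)) := by
    rw [← frame_zero_iff v, frame_inFrame]
    exact h0
  have h4 : LAB (frame v o (inFrame v o (MSum M A B))) := by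
    rw [frame_inFrame]
    exact msum_lab hM hA hB
  have hT : (∃ α β : ℝ, 0 < α ∧ 0 < β ∧ M = {p | 0 ≤ p 0 ∧ 0 ≤ p 1 ∧ p 0 / α + p 1 / β ≤ 1}) →
      SepBy (inFrame v o (MSum M A B)) o (2 ^ d) ∧
      (¬ SepBy (inFrame v o (MSum M A B)) o (2 ^ d - 1) →
      ∃ s t : Fin d → ℝ, (∀ i, 0 < s i) ∧ (∀ i, 0 < t i) ∧ inFrame v o (MSum M A B) =
        convexHull ℝ (⋃ i, ({o + s i • v i, o - t i • v i} : Set (Eu d)))) := by
    rintro ⟨α, β, hα, hβ, hT⟩
    refine joined_main hd v h1 h2 h3 h4 ?_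
    rw [frame_inFrame]
    exact msum_joined hM hA hB hα hβ hT
  have hN : (¬ ∃ α β : ℝ, 0 < α ∧ 0 < β ∧
      M = {p | 0 ≤ p 0 ∧ 0 ≤ p 1 ∧ p 0 / α + p 1 / β ≤ 1}) →
      SepBy (inFrame v o (MSum M A B)) o (2 * d.choose (d / 2)) := by
    intro hT
    refine bulging_main v h2 h3 h4 ?_
    rw [frame_inFrame]
    exact msum_bulging hM hA hB hT
  refine ⟨h1, h2, h3, ?_, fun h => (hT h).2, hN⟩
  by_cases h : ∃ α β : ℝ, 0 < α ∧ 0 < β ∧
      M = {p | 0 ≤ p 0 ∧ 0 ≤ p 1 ∧ p 0 / α + p 1 / β ≤ 1}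
  · exact (hT h).1
  · obtain ⟨m, rfl⟩ : ∃ m, d = m + 1 := ⟨d - 1, by omega⟩
    refine (hN h).mono (Nat.mul_pos two_pos (Nat.choose_pos (Nat.div_le_self _ _))) ?_
    rw [pow_succ, mul_comm]
    exact Nat.mul_le_mul_right _ (choose_succ_le' _ _)

end Pool.Agent.Q39.HD
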